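import Pool.Agent.Q106.ER.Tails
import Pool.Agent.Q106.ZO.Few

/-!
# Lower bounds for exact numbers of occurrences
-/

set_option autoImplicit false

namespace Pool.Agent.Q106.ER

open Finset MeasureTheory ProbabilityTheory Filter Pool.Agent.Q120.GM Pool.Agent.Q106.UR
open Pool.Agent.Q106.ZO (nei mem_nei)

variable {Ω : Type*} [MeasurableSpace Ω] {μ : Measure Ω} [IsProbabilityMeasure μ] {ι κ I : Type*} [DecidableEq ι]
  [DecidableEq κ] [Fintype I] [DecidableEq I] {p : ι → ℝ} {A : Ω → Set ι}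

/-- No set of the family meets both `T i` and `T j`. -/
def Cmp (J : Finset κ) (T : κ → Finset ι) (i j : κ) : Prop := ∀ l ∈ J, Disjoint (T l) (T i) ∨ Disjoint (T l) (T j)

/-- Weak dependence for sets of the same size. -/
structure Uf (p : ι → ℝ) (J : Finset κ) (T : κ → Finset ι) (k : ℕ) (K η : ℝ) : Prop where
  card : ∀ i ∈ J, (T i).card = k
  pos : 1 ≤ k
  inj : ∀ i ∈ J, ∀ j ∈ J, T i = T j → i = j
  nbr : ∀ i ∈ J, ((nei J T (T i)).card : ℝ) ≤ K
  sm : ∀ i ∈ J, ∀ b ∈ T i, p b ≤ η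
  half : η ≤ 1 / 2
  nn : 0 ≤ η
  K0 : 0 ≤ K

theorem pT_le (hA : IsModel μ p A) {U : Finset ι} {b : ι} (hb : b ∈ U) : pT p U ≤ p b := by
  unfold pT
  rw [← Finset.mul_prod_erase U p hb]
  have h1 : ∏ i ∈ U.erase b, p i ≤ 1 := prod_le_one (fun i _ => p_nonneg hA i) (fun i _ => p_le_one hA i)
  have := mul_le_mul_of_nonneg_left h1 (p_nonneg hA b)
  linarith

theorem exp_le_one_sub {x : ℝ} (h0 : 0 ≤ x) (h1 : x ≤ 1 / 2) : Real.exp (-(x + 2 * x ^ 2)) ≤ 1 - x := by
  have h2 : -(x + 2 * x ^ 2) ≤ Real.log (1 - x) := by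
    have h8 := Real.abs_log_sub_add_sum_range_le (x := x) (by rw [abs_of_nonneg h0]; linarith) 2
    rw [sum_range_succ, sum_range_one, abs_of_nonneg h0] at h8
    norm_num at h8
    have h9 := (abs_le.1 h8).1
    have h10 : x ^ 3 / (1 - x) ≤ x ^ 2 := by
      rw [div_le_iff₀ (by linarith)]
      nlinarith [sq_nonneg x, pow_nonneg h0 3]
    nlinarith [sq_nonneg x]
  calc Real.exp (-(x + 2 * x ^ 2)) ≤ Real.exp (Real.log (1 - x)) := Real.exp_le_exp.2 h2
    _ = 1 - x := Real.exp_log (by linarith)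

omit [MeasurableSpace Ω] in
theorem oc_eq {J S : Finset κ} (hS : S ⊆ J) (T : κ → Finset ι) :
    all A (S.biUnion T) ∩ none A (J \ S) T ⊆ {ω | oc A J T ω = S} := by
  rintro ω ⟨h1, h2⟩
  show oc A J T ω = S
  ext j
  rw [mem_oc]
  constructor
  · rintro ⟨h3, h4⟩
    by_contra hj
    exact h2 j (Finset.mem_sdiff.2 ⟨h3, hj⟩) h4
  · intro hj
    exact ⟨hS hj, (all_biUnion S T ω).1 h1 j hj⟩

theorem cmp_disj {J S : Finset κ} {T : κ → Finset ι} (hS : S ⊆ J) (hne : ∀ j ∈ J, (T j).Nonempty)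
    (hc : ∀ i ∈ S, ∀ j ∈ S, i ≠ j → Cmp J T i j) : ∀ i ∈ S, ∀ j ∈ S, i ≠ j → Disjoint (T i) (T j) := by
  intro i hi j hj hij
  rcases hc i hi j hj hij i (hS hi) with h | h
  · rw [disjoint_self] at h
    exact absurd h (hne i (hS hi)).ne_empty
  · exact h

/-- **The probability that exactly the sets of `S` occur.** -/
theorem exact_low (hA : IsModel μ p A) {J S : Finset κ} {T : κ → Finset ι} {k : ℕ} {K η : ℝ}
    (hU : Uf p J T k K η) (hS : S ⊆ J) (hc : ∀ i ∈ S, ∀ j ∈ S, i ≠ j → Cmp J T i j) :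
    (∏ j ∈ S, pT p (T j)) * Real.exp (-((1 + 2 * η) * ∑ j ∈ J, pT p (T j) + 2 * η * K * S.card)) ≤
      μ.real (all A (S.biUnion T) ∩ none A (J \ S) T) := by
  have hne : ∀ j ∈ J, (T j).Nonempty := fun j hj => card_pos.1 (by rw [hU.card j hj]; exact hU.pos)
  obtain ⟨W, hW⟩ : ∃ W, W = S.biUnion T := ⟨_, rfl⟩
  rw [inter_none_real hA, real_all hA, prod_biUnion (fun i hi j hj hij => cmp_disj hS hne hc i hi j hj hij)]
  refine mul_le_mul_of_nonneg_left ?_ (prod_nonneg (fun j _ => pT_nonneg hA _))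
  refine le_trans ?_ (harris hA (J \ S) (fun j => T j \ S.biUnion T))
  rw [← hW]
  -- the sets which meet `W`
  obtain ⟨N, hN⟩ : ∃ N, N = (J \ S).filter (fun j => ¬ Disjoint (T j) W) := ⟨_, rfl⟩
  have hfac : ∀ l ∈ J \ S, Real.exp (-((1 + 2 * η) * pT p (T l) + if ¬ Disjoint (T l) W then 2 * η else 0)) ≤
      1 - ∏ i ∈ T l \ W, p i := by
    intro l hl
    rw [Finset.mem_sdiff] at hl
    have hη0 := hU.nn
    have hpl : pT p (T l) ≤ η := by
      obtain ⟨b, hb⟩ := hne l hl.1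
      exact (pT_le hA hb).trans (hU.sm l hl.1 b hb)
    have hpl0 := pT_nonneg hA (T l)
    split_ifs with hd
    · have e1 : T l \ W = T l := by
        rw [Finset.sdiff_eq_self_iff_disjoint]
        exact hd
      rw [e1, add_zero]
      have e2 := exp_le_one_sub hpl0 (hpl.trans hU.half)
      refine le_trans (Real.exp_le_exp.2 ?_) e2
      nlinarith
    · -- it meets exactly one
      have hex : ∃ b ∈ T l, b ∉ W := by
        rw [Finset.not_disjoint_iff] at hd
        obtain ⟨b, hb1, hb2⟩ := hd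
        rw [hW, mem_biUnion] at hb2
        obtain ⟨i, hi, hb2⟩ := hb2
        by_contra hcon
        push Not at hcon
        have e1 : T l ⊆ T i := by
          intro b' hb'
          have e2 := hcon b' hb'
          rw [hW, mem_biUnion] at e2
          obtain ⟨i', hi', hb3⟩ := e2
          by_cases hii : i' = i
          · rw [← hii]
            exact hb3
          · rcases hc i' hi' i hi hii l hl.1 with h | h
            · exact absurd hb3 (Finset.disjoint_left.1 h hb')
            · exact absurd hb2 (Finset.disjoint_left.1 h hb1)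
        have e2 : T l = T i := eq_of_subset_of_card_le e1 (by rw [hU.card l hl.1, hU.card i (hS hi)])
        have e3 := hU.inj l hl.1 i (hS hi) e2
        rw [e3] at hl
        exact hl.2 hi
      obtain ⟨b, hb1, hb2⟩ := hex
      have e1 : ∏ i ∈ T l \ W, p i ≤ η := (pT_le hA (Finset.mem_sdiff.2 ⟨hb1, hb2⟩)).trans (hU.sm l hl.1 b hb1)
      have e2 := exp_le_one_sub hη0 hU.half
      refine le_trans (Real.exp_le_exp.2 ?_) (e2.trans (by linarith))
      have e3 := hU.half
      nlinarith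
  refine le_trans ?_ (prod_le_prod (fun l _ => (Real.exp_pos _).le) hfac)
  rw [← Real.exp_sum]
  refine Real.exp_le_exp.2 ?_
  rw [sum_neg_distrib, sum_add_distrib, ← mul_sum, ← sum_filter, sum_const, nsmul_eq_mul, neg_le_neg_iff]
  have hη0 := hU.nn
  have hK0 := hU.K0
  have e1 : ∑ l ∈ J \ S, pT p (T l) ≤ ∑ l ∈ J, pT p (T l) :=
    sum_le_sum_of_subset_of_nonneg sdiff_subset (fun _ _ _ => pT_nonneg hA _)
  have e2 : (((J \ S).filter (fun l => ¬ Disjoint (T l) W)).card : ℝ) ≤ K * S.card := by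
    have e3 : (J \ S).filter (fun l => ¬ Disjoint (T l) W) ⊆ S.biUnion (fun i => nei J T (T i)) := by
      intro l hl
      rw [mem_filter, Finset.mem_sdiff, Finset.not_disjoint_iff] at hl
      obtain ⟨hl1, b, hb1, hb2⟩ := hl
      rw [hW, mem_biUnion] at hb2
      obtain ⟨i, hi, hb2⟩ := hb2
      rw [mem_biUnion]
      exact ⟨i, hi, mem_nei.2 ⟨hl1.1, fun h => Finset.disjoint_left.1 h hb1 hb2⟩⟩
    have e4 : ((S.biUnion (fun i => nei J T (T i))).card : ℝ) ≤ ∑ i ∈ S, ((nei J T (T i)).card : ℝ) := by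
      exact_mod_cast card_biUnion_le
    have e5 : ∑ i ∈ S, ((nei J T (T i)).card : ℝ) ≤ ∑ _i ∈ S, K := sum_le_sum (fun i hi => hU.nbr i (hS hi))
    rw [sum_const, nsmul_eq_mul] at e5
    have e6 : (((J \ S).filter (fun l => ¬ Disjoint (T l) W)).card : ℝ) ≤ ((S.biUnion (fun i => nei J T (T i))).card : ℝ) := by
      exact_mod_cast card_le_card e3
    linarith
  have e3 := mul_le_mul_of_nonneg_left e1 (show (0 : ℝ) ≤ 1 + 2 * η by linarith)
  have e4 := mul_le_mul_of_nonneg_right e2 (show (0 : ℝ) ≤ 2 * η by linarith)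
  linarith

/-- The families with prescribed numbers of the kinds. -/
noncomputable def Fam (J : Finset κ) (T : κ → Finset ι) (τ : κ → I) (n : I → ℕ) : Finset (Finset κ) := by
  classical
  exact J.powerset.filter (fun S => (∀ i ∈ S, ∀ j ∈ S, i ≠ j → Cmp J T i j) ∧ ∀ i, (S.filter (fun j => τ j = i)).card = n i)

theorem mem_Fam {J S : Finset κ} {T : κ → Finset ι} {τ : κ → I} {n : I → ℕ} : S ∈ Fam J T τ n ↔
    S ⊆ J ∧ (∀ i ∈ S, ∀ j ∈ S, i ≠ j → Cmp J T i j) ∧ ∀ i, (S.filter (fun j => τ j = i)).card = n i := by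
  classical
  simp only [Fam, mem_filter, mem_powerset]

omit [DecidableEq ι] [DecidableEq κ] in
theorem card_kinds (S : Finset κ) (τ : κ → I) : ∑ i, (S.filter (fun j => τ j = i)).card = S.card := by
  have h := Finset.card_eq_sum_card_fiberwise (f := τ) (s := S) (t := univ) (fun _ _ => mem_univ _)
  exact h.symm

theorem Cmp.symm {J : Finset κ} {T : κ → Finset ι} {i j : κ} (h : Cmp J T i j) : Cmp J T j i :=
  fun l hl => (h l hl).symm

/-- The few indices which are not compatible with `S`. -/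
theorem incomp (hA : IsModel μ p A) {J S : Finset κ} {T : κ → Finset ι} {k : ℕ} {K η : ℝ}
    (hU : Uf p J T k K η) (hS : S ⊆ J) (τ : κ → I) (i : I) [DecidablePred (fun j => ∀ l ∈ S, Cmp J T j l)] :
    me p J T τ i - η * (K ^ 2 * S.card) ≤
      ∑ j ∈ J with (τ j = i ∧ j ∉ S) ∧ ∀ l ∈ S, Cmp J T j l, pT p (T j) := by
  have hne : ∀ j ∈ J, (T j).Nonempty := fun j hj => card_pos.1 (by rw [hU.card j hj]; exact hU.pos)
  have hη0 := hU.nn
  have hK0 := hU.K0
  obtain ⟨B, hB⟩ : ∃ B, B = S.biUnion (fun l => (nei J T (T l)).biUnion (fun l' => nei J T (T l'))) := ⟨_, rfl⟩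
  have hBc : (B.card : ℝ) ≤ K ^ 2 * S.card := by
    have e1 : (B.card : ℝ) ≤ ∑ l ∈ S, (((nei J T (T l)).biUnion (fun l' => nei J T (T l'))).card : ℝ) := by
      rw [hB]
      exact_mod_cast card_biUnion_le
    have e2 : ∀ l ∈ S, (((nei J T (T l)).biUnion (fun l' => nei J T (T l'))).card : ℝ) ≤ K ^ 2 := by
      intro l hl
      have f1 : (((nei J T (T l)).biUnion (fun l' => nei J T (T l'))).card : ℝ) ≤
          ∑ l' ∈ nei J T (T l), ((nei J T (T l')).card : ℝ) := by exact_mod_cast card_biUnion_le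
      have f2 : ∑ l' ∈ nei J T (T l), ((nei J T (T l')).card : ℝ) ≤ ∑ _l' ∈ nei J T (T l), K :=
        sum_le_sum (fun l' hl' => hU.nbr l' (mem_nei.1 hl').1)
      rw [sum_const, nsmul_eq_mul] at f2
      have f3 := mul_le_mul_of_nonneg_right (hU.nbr l (hS hl)) hK0
      rw [sq]
      linarith
    have e3 := sum_le_sum e2
    rw [sum_const, nsmul_eq_mul] at e3
    linarith
  have h1 : J.filter (fun j => τ j = i) ⊆ (J.filter (fun j => (τ j = i ∧ j ∉ S) ∧ ∀ l ∈ S, Cmp J T j l)) ∪ (B ∩ J) := by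
    intro j hj
    rw [mem_filter] at hj
    rw [mem_union, mem_filter]
    by_cases h2 : ∀ l ∈ S, Cmp J T j l
    · left
      refine ⟨hj.1, ⟨hj.2, fun h3 => ?_⟩, h2⟩
      rcases h2 j h3 j hj.1 with h4 | h4
      · rw [disjoint_self] at h4
        exact (hne j hj.1).ne_empty h4
      · rw [disjoint_self] at h4
        exact (hne j hj.1).ne_empty h4
    · right
      push Not at h2
      obtain ⟨l, hl, h3⟩ := h2
      unfold Cmp at h3
      push Not at h3
      obtain ⟨l', hl', h4, h5⟩ := h3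
      rw [mem_inter, hB, mem_biUnion]
      refine ⟨⟨l, hl, ?_⟩, hj.1⟩
      rw [mem_biUnion]
      exact ⟨l', mem_nei.2 ⟨hl', h5⟩, mem_nei.2 ⟨hj.1, fun h => h4 h.symm⟩⟩
  have h2 : me p J T τ i ≤ ∑ j ∈ J with (τ j = i ∧ j ∉ S) ∧ ∀ l ∈ S, Cmp J T j l, pT p (T j) +
      ∑ j ∈ B ∩ J, pT p (T j) := by
    unfold me
    refine (sum_le_sum_of_subset_of_nonneg h1 (fun _ _ _ => pT_nonneg hA _)).trans ?_
    have := sum_union_inter (s₁ := J.filter (fun j => (τ j = i ∧ j ∉ S) ∧ ∀ l ∈ S, Cmp J T j l)) (s₂ := B ∩ J)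
      (f := fun j => pT p (T j))
    have h3 : 0 ≤ ∑ j ∈ (J.filter (fun j => (τ j = i ∧ j ∉ S) ∧ ∀ l ∈ S, Cmp J T j l)) ∩ (B ∩ J), pT p (T j) :=
      sum_nonneg (fun _ _ => pT_nonneg hA _)
    linarith
  have h3 : ∑ j ∈ B ∩ J, pT p (T j) ≤ η * (K ^ 2 * S.card) := by
    have e1 : ∑ j ∈ B ∩ J, pT p (T j) ≤ ∑ _j ∈ B ∩ J, η := by
      refine sum_le_sum (fun j hj => ?_)
      rw [mem_inter] at hj
      obtain ⟨b, hb⟩ := hne j hj.2
      exact (pT_le hA hb).trans (hU.sm j hj.2 b hb)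
    rw [sum_const, nsmul_eq_mul] at e1
    have e2 : ((B ∩ J).card : ℝ) ≤ B.card := by exact_mod_cast card_le_card inter_subset_left
    nlinarith
  linarith

/-- **The sum over the families.** -/
theorem fam_sum (hA : IsModel μ p A) {J : Finset κ} {T : κ → Finset ι} {k : ℕ} {K η : ℝ}
    (hU : Uf p J T k K η) (τ : κ → I) (m : I → ℝ) (hm0 : ∀ i, 0 ≤ m i) (N : ℕ)
    (hm : ∀ i, m i ≤ me p J T τ i - η * (K ^ 2 * N)) : ∀ (s : ℕ) (n : I → ℕ), ∑ i, n i = s → s ≤ N →
    ∏ i, m i ^ n i ≤ (∏ i, ((n i).factorial : ℝ)) * ∑ S ∈ Fam J T τ n, ∏ j ∈ S, pT p (T j) := by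
  classical
  intro s
  induction s with
  | zero =>
    intro n hn _
    have h1 : ∀ i, n i = 0 := by
      intro i
      exact (Finset.sum_eq_zero_iff.1 hn) i (mem_univ i)
    have h2 : (∅ : Finset κ) ∈ Fam J T τ n := by
      rw [mem_Fam]
      refine ⟨empty_subset _, fun i hi => absurd hi (notMem_empty i), fun i => ?_⟩
      rw [h1 i, filter_empty, card_empty]
    have h3 : ∏ j ∈ (∅ : Finset κ), pT p (T j) ≤ ∑ S ∈ Fam J T τ n, ∏ j ∈ S, pT p (T j) :=
      single_le_sum (f := fun S => ∏ j ∈ S, pT p (T j)) (fun S _ => prod_nonneg (fun j _ => pT_nonneg hA _)) h2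
    rw [prod_empty] at h3
    simp only [h1, pow_zero, prod_const_one, Nat.factorial_zero, Nat.cast_one, one_mul]
    exact h3
  | succ s ih =>
    intro n hn hN
    obtain ⟨i, hi⟩ : ∃ i, 1 ≤ n i := by
      by_contra hcon
      push Not at hcon
      have : ∑ i, n i = 0 := sum_eq_zero (fun i _ => by have := hcon i; omega)
      omega
    obtain ⟨n', hn'⟩ : ∃ n', n' = Function.update n i (n i - 1) := ⟨_, rfl⟩
    have hn'i : n' i = n i - 1 := by rw [hn', Function.update_self]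
    have hn'j : ∀ j, j ≠ i → n' j = n j := fun j hj => by rw [hn', Function.update_of_ne hj]
    have hsum : ∑ i, n' i = s := by
      have e1 := Finset.add_sum_erase univ n (mem_univ i)
      have e2 := Finset.add_sum_erase univ n' (mem_univ i)
      have e3 : ∑ j ∈ univ.erase i, n' j = ∑ j ∈ univ.erase i, n j :=
        sum_congr rfl (fun j hj => hn'j j (Finset.ne_of_mem_erase hj))
      omega
    have hih := ih n' hsum (by omega)
    -- factor out
    have hp : ∏ j, m j ^ n j = m i * ∏ j, m j ^ n' j := by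
      rw [← Finset.mul_prod_erase univ (fun j => m j ^ n j) (mem_univ i),
        ← Finset.mul_prod_erase univ (fun j => m j ^ n' j) (mem_univ i), ← mul_assoc]
      have e1 : ∏ j ∈ univ.erase i, m j ^ n' j = ∏ j ∈ univ.erase i, m j ^ n j :=
        prod_congr rfl (fun j hj => by rw [hn'j j (Finset.ne_of_mem_erase hj)])
      rw [e1, hn'i, ← pow_succ', Nat.sub_add_cancel hi]
    have hf : ∏ j, ((n j).factorial : ℝ) = n i * ∏ j, ((n' j).factorial : ℝ) := by
      rw [← Finset.mul_prod_erase univ (fun j => ((n j).factorial : ℝ)) (mem_univ i),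
        ← Finset.mul_prod_erase univ (fun j => ((n' j).factorial : ℝ)) (mem_univ i), ← mul_assoc]
      have e1 : ∏ j ∈ univ.erase i, ((n' j).factorial : ℝ) = ∏ j ∈ univ.erase i, ((n j).factorial : ℝ) :=
        prod_congr rfl (fun j hj => by rw [hn'j j (Finset.ne_of_mem_erase hj)])
      rw [e1, hn'i]
      obtain ⟨q, hq⟩ : ∃ q, n i = q + 1 := ⟨n i - 1, by omega⟩
      rw [hq, Nat.add_sub_cancel, Nat.factorial_succ]
      push_cast
      ring
    -- the double sum
    have hw0 : ∀ S : Finset κ, 0 ≤ ∏ j ∈ S, pT p (T j) := fun S => prod_nonneg (fun j _ => pT_nonneg hA _)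
    have hdc : (∑ S ∈ Fam J T τ n', ∏ j ∈ S, pT p (T j)) * m i ≤ n i * ∑ S ∈ Fam J T τ n, ∏ j ∈ S, pT p (T j) := by
      obtain ⟨X, hX⟩ : ∃ X : Finset (Finset κ × κ), X = (Fam J T τ n' ×ˢ J).filter
        (fun e => (τ e.2 = i ∧ e.2 ∉ e.1) ∧ ∀ l ∈ e.1, Cmp J T e.2 l) := ⟨_, rfl⟩
      obtain ⟨Y, hY⟩ : ∃ Y : Finset (Finset κ × κ), Y = (Fam J T τ n ×ˢ J).filter
        (fun e => e.2 ∈ e.1 ∧ τ e.2 = i) := ⟨_, rfl⟩
      have hXs : (∑ S ∈ Fam J T τ n', ∏ j ∈ S, pT p (T j)) * m i ≤ ∑ e ∈ X, (∏ j ∈ e.1, pT p (T j)) * pT p (T e.2) := by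
        rw [hX, sum_filter, sum_product, sum_mul]
        refine sum_le_sum (fun S hS => ?_)
        rw [mem_Fam] at hS
        rw [← sum_filter]
        show (∏ j ∈ S, pT p (T j)) * m i ≤ ∑ a ∈ J with (τ a = i ∧ a ∉ S) ∧ ∀ l ∈ S, Cmp J T a l,
          (∏ j ∈ S, pT p (T j)) * pT p (T a)
        rw [← mul_sum]
        refine mul_le_mul_of_nonneg_left ?_ (hw0 S)
        have e1 := incomp hA hU hS.1 τ i
        refine le_trans ?_ e1
        refine (hm i).trans ?_
        have e2 : (S.card : ℝ) ≤ N := by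
          have : S.card = s := by
            rw [← card_kinds S τ, ← hsum]
            exact sum_congr rfl (fun j _ => hS.2.2 j)
          rw [this]
          exact_mod_cast (by omega : s ≤ N)
        have : η * (K ^ 2 * (S.card : ℝ)) ≤ η * (K ^ 2 * N) :=
          mul_le_mul_of_nonneg_left (mul_le_mul_of_nonneg_left e2 (sq_nonneg K)) hU.nn
        linarith
      have hYs : ∑ e ∈ Y, ∏ j ∈ e.1, pT p (T j) = n i * ∑ S ∈ Fam J T τ n, ∏ j ∈ S, pT p (T j) := by
        rw [hY, sum_filter, sum_product, mul_sum]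
        refine sum_congr rfl (fun S hS => ?_)
        rw [mem_Fam] at hS
        rw [← sum_filter]
        show ∑ a ∈ J with a ∈ S ∧ τ a = i, ∏ j ∈ S, pT p (T j) = _
        rw [sum_const, nsmul_eq_mul]
        congr 1
        rw [← hS.2.2 i]
        congr 2
        ext j
        rw [mem_filter, mem_filter]
        exact ⟨fun h => h.2, fun h => ⟨hS.1 h.1, h⟩⟩
      refine hXs.trans (le_trans ?_ hYs.le)
      have hinj : Set.InjOn (fun e : Finset κ × κ => (insert e.2 e.1, e.2)) ↑X := by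
        rintro ⟨S, j⟩ he ⟨S', j'⟩ he' h
        rw [Finset.mem_coe, hX, mem_filter] at he he'
        simp only [Prod.mk.injEq] at h
        obtain ⟨h1, h2⟩ := h
        subst h2
        have g1 : j ∉ S := he.2.1.2
        have g2 : j ∉ S' := he'.2.1.2
        have h3 : S = S' := by
          rw [← Finset.erase_insert g1, h1, Finset.erase_insert g2]
        rw [h3]
      have himg : X.image (fun e : Finset κ × κ => (insert e.2 e.1, e.2)) ⊆ Y := by
        intro e he
        rw [mem_image] at he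
        obtain ⟨⟨S, j⟩, he, rfl⟩ := he
        rw [hX, mem_filter, mem_product, mem_Fam] at he
        obtain ⟨⟨⟨h1, h2, h3⟩, h4⟩, ⟨h5, h6⟩, h7⟩ := he
        rw [hY, mem_filter, mem_product, mem_Fam]
        refine ⟨⟨⟨insert_subset h4 h1, ?_, ?_⟩, h4⟩, mem_insert_self _ _, h5⟩
        · intro a ha b hb hab
          rw [mem_insert] at ha hb
          rcases ha with rfl | ha <;> rcases hb with rfl | hb
          · exact absurd rfl hab
          · exact h7 b hb
          · exact (h7 a ha).symm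
          · exact h2 a ha b hb hab
        · intro i'
          show ((insert j S).filter (fun j => τ j = i')).card = n i'
          rw [filter_insert]
          by_cases hii : τ j = i'
          · rw [if_pos hii, card_insert_of_notMem (fun h => h6 (mem_filter.1 h).1), h3 i']
            have : i' = i := by rw [← hii]; exact h5
            rw [this, hn'i, Nat.sub_add_cancel hi]
          · rw [if_neg hii, h3 i']
            refine hn'j i' (fun h => hii ?_)
            rw [h]
            exact h5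
      refine le_trans (le_of_eq ?_) (sum_le_sum_of_subset_of_nonneg himg (fun e _ _ => hw0 e.1))
      rw [sum_image hinj]
      refine sum_congr rfl (fun e he => ?_)
      rw [hX, mem_filter] at he
      show _ = ∏ j ∈ insert e.2 e.1, pT p (T j)
      rw [prod_insert he.2.1.2, mul_comm]
    rw [hp, hf]
    have hfn : 0 ≤ ∏ j, ((n' j).factorial : ℝ) := prod_nonneg (fun _ _ => Nat.cast_nonneg _)
    calc m i * ∏ j, m j ^ n' j ≤ m i * ((∏ j, ((n' j).factorial : ℝ)) * ∑ S ∈ Fam J T τ n', ∏ j ∈ S, pT p (T j)) :=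
          mul_le_mul_of_nonneg_left hih (hm0 i)
      _ = (∏ j, ((n' j).factorial : ℝ)) * ((∑ S ∈ Fam J T τ n', ∏ j ∈ S, pT p (T j)) * m i) := by ring
      _ ≤ (∏ j, ((n' j).factorial : ℝ)) * (n i * ∑ S ∈ Fam J T τ n, ∏ j ∈ S, pT p (T j)) :=
          mul_le_mul_of_nonneg_left hdc hfn
      _ = _ := by ring

/-- **Exact numbers of all kinds.** -/
theorem le_exact (hA : IsModel μ p A) {J : Finset κ} {T : κ → Finset ι} {k : ℕ} {K η : ℝ}
    (hU : Uf p J T k K η) (τ : κ → I) (m : I → ℝ) (hm0 : ∀ i, 0 ≤ m i) (N : ℕ)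
    (hm : ∀ i, m i ≤ me p J T τ i - η * (K ^ 2 * N)) (n : I → ℕ) (hn : ∑ i, n i ≤ N) :
    (∏ i, m i ^ n i) / (∏ i, ((n i).factorial : ℝ)) * Real.exp (-((1 + 2 * η) * ∑ i, me p J T τ i + 2 * η * K * N)) ≤
      μ.real {ω | ∀ i, cn A J T τ i ω = n i} := by
  classical
  have h1 := fam_sum hA hU τ m hm0 N hm _ n rfl hn
  have hf : 0 < ∏ i, ((n i).factorial : ℝ) := prod_pos (fun i _ => by exact_mod_cast Nat.factorial_pos _)
  have h2 : (∏ i, m i ^ n i) / (∏ i, ((n i).factorial : ℝ)) ≤ ∑ S ∈ Fam J T τ n, ∏ j ∈ S, pT p (T j) := by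
    rw [div_le_iff₀ hf]
    linarith
  have hsum : ∑ j ∈ J, pT p (T j) = ∑ i, me p J T τ i := by
    have := sum_me (p := p) J T τ (fun _ => 1)
    simpa using this
  have h3 : (∑ S ∈ Fam J T τ n, ∏ j ∈ S, pT p (T j)) *
      Real.exp (-((1 + 2 * η) * ∑ i, me p J T τ i + 2 * η * K * N)) ≤
      ∑ S ∈ Fam J T τ n, μ.real (all A (S.biUnion T) ∩ none A (J \ S) T) := by
    rw [sum_mul]
    refine sum_le_sum (fun S hS => ?_)
    rw [mem_Fam] at hS
    refine le_trans ?_ (exact_low hA hU hS.1 hS.2.1)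
    refine mul_le_mul_of_nonneg_left (Real.exp_le_exp.2 ?_) (prod_nonneg (fun j _ => pT_nonneg hA _))
    have e1 : (S.card : ℝ) ≤ N := by
      have e2 : S.card = ∑ i, n i := by
        rw [← card_kinds S τ]
        exact sum_congr rfl (fun j _ => hS.2.2 j)
      rw [e2]
      exact_mod_cast hn
    have e3 := mul_le_mul_of_nonneg_left e1 (mul_nonneg (mul_nonneg zero_le_two hU.nn) hU.K0)
    rw [hsum]
    linarith
  have h4 : ∑ S ∈ Fam J T τ n, μ.real (all A (S.biUnion T) ∩ none A (J \ S) T) ≤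
      μ.real {ω | ∀ i, cn A J T τ i ω = n i} := by
    rw [← measureReal_biUnion_finset (μ := μ) (s := Fam J T τ n)
      (f := fun S => all A (S.biUnion T) ∩ none A (J \ S) T)]
    · refine measureReal_mono ?_ (measure_ne_top _ _)
      intro ω hω
      rw [Set.mem_iUnion₂] at hω
      obtain ⟨S, hS, hω⟩ := hω
      rw [mem_Fam] at hS
      have e1 : oc A J T ω = S := oc_eq hS.1 T hω
      intro i
      unfold cn
      rw [e1]
      exact hS.2.2 i
    · intro S hS S' hS' hne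
      rw [Function.onFun, Set.disjoint_left]
      intro ω hω hω'
      rw [Finset.mem_coe, mem_Fam] at hS hS'
      have e1 : oc A J T ω = S := oc_eq hS.1 T hω
      have e2 : oc A J T ω = S' := oc_eq hS'.1 T hω'
      exact hne (e1.symm.trans e2)
    · intro S _
      exact (meas_all hA _).inter (meas_none hA _ _)
  exact (mul_le_mul_of_nonneg_right h2 (Real.exp_pos _).le).trans (h3.trans h4)

end Pool.Agent.Q106.ER
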