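import Pool.Agent.Q106.ER.Prob
import Pool.Agent.Q120.GM.Count

/-!
# The limit set and the spectrum
-/

set_option autoImplicit false

namespace Pool.Agent.Q106.ER

open Finset MeasureTheory ProbabilityTheory Filter Pool.Agent.Q120.GM Pool.Agent.Q106.UR
open scoped Topology

variable {Ω : Type*} [MeasurableSpace Ω] {μ : Measure Ω} [IsProbabilityMeasure μ] {A : Ω → Set ℕ}
  {I : Type*} [Fintype I] [DecidableEq I]

/-! ### The rate function -/

theorem rt_eq {M : ℝ} (hM : 0 < M) (a : ℝ) : rt M a = a * Real.log a - a * Real.log M - a + M := by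
  unfold rt
  by_cases ha : a = 0
  · rw [ha]
    simp
  · rw [Real.log_div ha hM.ne']
    ring

theorem rt_cont {M : ℝ} (hM : 0 < M) : Continuous (rt M) := by
  have h1 : rt M = fun a => a * Real.log a - a * Real.log M - a + M := funext (fun a => rt_eq hM a)
  rw [h1]
  exact ((Real.continuous_mul_log.sub (continuous_id.mul continuous_const)).sub continuous_id).add continuous_const

theorem rt_nonneg {M a : ℝ} (hM : 0 < M) (ha : 0 ≤ a) : 0 ≤ rt M a := by
  rcases ha.eq_or_lt with h | h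
  · rw [← h]
    unfold rt
    simp
    exact hM.le
  · unfold rt
    have h1 := Real.one_sub_inv_le_log_of_pos (show 0 < a / M by positivity)
    have h2 := mul_le_mul_of_nonneg_left h1 ha
    have h3 : a * (1 - (a / M)⁻¹) = a - M := by
      field_simp
    linarith

theorem rt_conv {M a s : ℝ} (hM : 0 < M) (ha : 0 ≤ a) (hs0 : 0 ≤ s) (hs1 : s ≤ 1) :
    rt M ((1 - s) * a + s * M) ≤ (1 - s) * rt M a := by
  have h1 := Real.convexOn_mul_log.2 (Set.mem_Ici.2 ha) (Set.mem_Ici.2 hM.le) (show (0 : ℝ) ≤ 1 - s by linarith) hs0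
    (by ring)
  simp only [smul_eq_mul] at h1
  rw [rt_eq hM, rt_eq hM]
  nlinarith

theorem rt_weight {M a ρ : ℝ} (hM : 0 < M) (ha : 0 ≤ a) (hρ : 0 < ρ) :
    ∃ w : ℝ, 0 < w ∧ (w - 1) * M - a * Real.log w ≤ -rt M a + ρ := by
  rcases ha.eq_or_lt with h | h
  · refine ⟨ρ / M, by positivity, ?_⟩
    rw [← h]
    unfold rt
    have h1 : (ρ / M - 1) * M = ρ - M := by field_simp
    rw [h1]
    simp
  · refine ⟨a / M, by positivity, ?_⟩
    unfold rt
    have h1 : (a / M - 1) * M = a - M := by field_simp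
    rw [h1]
    linarith

/-- The joint rate. -/
noncomputable def Ra (M : I → ℝ) (a : I → ℝ) : ℝ := ∑ i, rt (M i) (a i)

theorem Ra_nonneg {M a : I → ℝ} (hM : ∀ i, 0 < M i) (ha : ∀ i, 0 ≤ a i) : 0 ≤ Ra M a :=
  sum_nonneg (fun i _ => rt_nonneg (hM i) (ha i))

theorem Ra_cont {M : I → ℝ} (hM : ∀ i, 0 < M i) : Continuous (Ra M) :=
  continuous_finsetSum _ (fun i _ => (rt_cont (hM i)).comp (continuous_apply i))

/-- Approximation by interior points. -/
theorem approx {M a : I → ℝ} (hM : ∀ i, 0 < M i) (ha : ∀ i, 0 ≤ a i) {ε : ℝ} (hε : 0 < ε) :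
    ∃ b : I → ℝ, (∀ i, 0 < b i) ∧ (∀ i, |b i - a i| ≤ ε) ∧ Ra M b ≤ Ra M a ∧ (Ra M a ≤ 1 → Ra M b < 1) := by
  obtain ⟨R, hR⟩ : ∃ R : ℝ, R = ∑ i, |M i - a i| + 1 := ⟨_, rfl⟩
  have hR1 : 1 ≤ R := by
    rw [hR]
    have : 0 ≤ ∑ i, |M i - a i| := sum_nonneg (fun _ _ => abs_nonneg _)
    linarith
  obtain ⟨s, hs⟩ : ∃ s : ℝ, s = min 1 (ε / R) := ⟨_, rfl⟩
  have hs0 : 0 < s := by rw [hs]; exact lt_min one_pos (by positivity)
  have hs1 : s ≤ 1 := by rw [hs]; exact min_le_left _ _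
  have hsR : s * R ≤ ε := by
    have : s ≤ ε / R := by rw [hs]; exact min_le_right _ _
    rw [le_div_iff₀ (by linarith)] at this
    exact this
  have hle : Ra M (fun i => (1 - s) * a i + s * M i) ≤ (1 - s) * Ra M a := by
    unfold Ra
    rw [mul_sum]
    exact sum_le_sum (fun i _ => rt_conv (hM i) (ha i) hs0.le hs1)
  have hn := Ra_nonneg hM ha
  refine ⟨fun i => (1 - s) * a i + s * M i, fun i => ?_, fun i => ?_, ?_, fun h => ?_⟩
  · have h1 : 0 ≤ (1 - s) * a i := mul_nonneg (by linarith) (ha i)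
    have h2 : 0 < s * M i := mul_pos hs0 (hM i)
    show 0 < (1 - s) * a i + s * M i
    linarith
  · have h1 : (1 - s) * a i + s * M i - a i = s * (M i - a i) := by ring
    rw [h1, abs_mul, abs_of_pos hs0]
    have h2 : |M i - a i| ≤ R := by
      rw [hR]
      have := single_le_sum (f := fun i => |M i - a i|) (fun i _ => abs_nonneg _) (mem_univ i)
      linarith
    exact (mul_le_mul_of_nonneg_left h2 hs0.le).trans hsR
  · nlinarith
  · nlinarith

/-! ### The events -/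

/-- The numbers are near `a log x`. -/
def Bal (A : Ω → Set ℕ) (k : ℕ) (H : I → Finset ℕ) (α β a : I → ℝ) (ε : ℝ) (x : ℕ) : Set Ω :=
  {ω | ∀ i, |(Nu A k H α β x i ω : ℝ) - a i * Real.log x| ≤ ε * Real.log x}

theorem Nu_eq (A : Ω → Set ℕ) (k : ℕ) (H : I → Finset ℕ) (α β : I → ℝ) (x : ℕ) (i : I) (ω : Ω) :
    (Nu A k H α β x i ω : ℝ) = nm A ((JJ k α β x).filter (fun e => e.1 = i)) (TT H) ω := by
  rw [nm_card]
  unfold Nu cn
  congr 2
  ext e
  rw [mem_filter, mem_oc, mem_oc, mem_filter]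
  constructor
  · rintro ⟨⟨h1, h2⟩, h3⟩
    exact ⟨⟨h1, h3⟩, h2⟩
  · rintro ⟨⟨h1, h3⟩, h2⟩
    exact ⟨⟨h1, h2⟩, h3⟩

/-- The set which determines the numbers. -/
def Wn (k : ℕ) (H : I → Finset ℕ) (β : I → ℝ) (x : ℕ) : Set ℕ :=
  {n | (x : ℝ) ≤ n ∧ (n : ℝ) ≤ x + (∑ i, β i) * sc k x + ((∑ i, (H i).sup id : ℕ) : ℝ)}

theorem F_Bal {Q k : ℕ} {H : I → Finset ℕ} {α β : I → ℝ} (hK : Kd Q k H α β) (a : I → ℝ) (ε : ℝ) (x : ℕ) :
    MeasurableSet[F A (Wn k H β x)] (Bal A k H α β a ε x) := by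
  have h1 : Bal A k H α β a ε x = ⋂ i, {ω | |nm A ((JJ k α β x).filter (fun e => e.1 = i)) (TT H) ω - a i * Real.log x| ≤
      ε * Real.log x} := by
    ext ω
    rw [Set.mem_iInter]
    refine forall_congr' (fun i => ?_)
    rw [Nu_eq]
    exact Iff.rfl
  rw [h1]
  refine MeasurableSet.iInter (fun i => ?_)
  let _ : MeasurableSpace Ω := F A (Wn k H β x)
  have h2 : Measurable (nm A ((JJ k α β x).filter (fun e => e.1 = i)) (TT H)) := by
    unfold nm
    refine Finset.measurable_fun_sum _ (fun e he => F_ind (fun b hb => ?_))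
    rw [mem_filter] at he
    refine ⟨TT_ge hK.a0 (fun i => (hK.a0 i).trans (hK.ab i).le) he.1 hb, ?_⟩
    have h3 := (mem_Po (hK.a0 e.1) ((hK.a0 e.1).trans (hK.ab e.1).le)).1 (mem_JJ.1 he.1)
    obtain ⟨h, hh, e1⟩ := mem_tl.1 hb
    have e2 : h ≤ ∑ i, (H i).sup id := by
      have g1 : h ≤ (H e.1).sup id := Finset.le_sup (f := id) hh
      exact g1.trans (single_le_sum (f := fun i => (H i).sup id) (fun _ _ => Nat.zero_le _) (mem_univ e.1))
    have e3 : (h : ℝ) ≤ ((∑ i, (H i).sup id : ℕ) : ℝ) := by exact_mod_cast e2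
    have e4 : β e.1 * sc k x ≤ (∑ i, β i) * sc k x := by
      refine mul_le_mul_of_nonneg_right ?_ (sc_nonneg k x)
      exact single_le_sum (f := β) (fun i _ => (hK.a0 i).trans (hK.ab i).le) (mem_univ e.1)
    rw [e1]
    push_cast
    push_cast at e3
    linarith [h3.2]
  have h3 : Measurable (fun ω => |nm A ((JJ k α β x).filter (fun e => e.1 = i)) (TT H) ω - a i * Real.log x|) := by
    have := (h2.sub_const (a i * Real.log x))
    exact this.abs
  exact h3 measurableSet_Iic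

theorem meas_Bal {Q k : ℕ} (hA : IsModel μ (level Q) A) {H : I → Finset ℕ} {α β : I → ℝ} (hK : Kd Q k H α β)
    (a : I → ℝ) (ε : ℝ) (x : ℕ) : MeasurableSet (Bal A k H α β a ε x) :=
  F_le hA _ _ (F_Bal hK a ε x)

theorem exp_log_rpow {x : ℕ} (hx : 1 ≤ x) (s : ℝ) : Real.exp (s * Real.log x) = (x : ℝ) ^ s := by
  rw [Real.rpow_def_of_pos (by exact_mod_cast hx), mul_comm]

/-- **Upper bound for a ball.** -/
theorem ball_up {Q k : ℕ} (hA : IsModel μ (level Q) A) (hQ : 1 ≤ Q) {H : I → Finset ℕ} {α β : I → ℝ}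
    (hK : Kd Q k H α β) {a : I → ℝ} (ha : ∀ i, 0 ≤ a i) {δ : ℝ} (hδ : 0 < δ) : ∃ ε : ℝ, 0 < ε ∧
    ∀ᶠ x : ℕ in atTop, μ.real (Bal A k H α β a ε x) ≤ (x : ℝ) ^ (-(Ra (MM Q H α β) a - δ)) := by
  obtain ⟨ρ, hρ⟩ : ∃ ρ : ℝ, ρ = δ / (2 * (Fintype.card I + 2)) := ⟨_, rfl⟩
  have hρ0 : 0 < ρ := by rw [hρ]; positivity
  have hw := fun i => rt_weight (MM_pos hK i) (ha i) hρ0
  choose w hw0 hw1 using hw
  obtain ⟨Λ, hΛ⟩ : ∃ Λ, Λ = ∑ i, |Real.log (w i)| := ⟨_, rfl⟩
  have hΛ0 : 0 ≤ Λ := by rw [hΛ]; exact sum_nonneg (fun _ _ => abs_nonneg _)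
  refine ⟨δ / (4 * (Λ + 1)), by positivity, ?_⟩
  obtain ⟨ε, hε⟩ : ∃ ε, ε = δ / (4 * (Λ + 1)) := ⟨_, rfl⟩
  have hε0 : 0 < ε := by rw [hε]; positivity
  have hεΛ : ε * Λ ≤ δ / 4 := by
    have : ε * (Λ + 1) = δ / 4 := by
      rw [hε]
      field_simp
    nlinarith
  rw [← hε]
  filter_upwards [ld_up hA hQ hK w a hw0 hε0.le hρ0, ev_log 0, eventually_ge_atTop 1] with x h1 h2 h3
  rw [← exp_log_rpow h3]
  refine (measureReal_mono (μ := μ) ?_ (measure_ne_top _ _)).trans (h1.trans (Real.exp_le_exp.2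
    (mul_le_mul_of_nonneg_right ?_ h2)))
  · intro ω hω i
    have h4 := abs_le.1 (hω i)
    exact ⟨fun _ => by linarith [h4.1], fun _ => by linarith [h4.2]⟩
  · rw [← hΛ]
    have h4 : ∑ i, ((w i - 1) * MM Q H α β i - a i * Real.log (w i)) ≤ ∑ i, (-rt (MM Q H α β i) (a i) + ρ) :=
      sum_le_sum (fun i _ => hw1 i)
    rw [sum_add_distrib, sum_neg_distrib, sum_const, card_univ, nsmul_eq_mul] at h4
    have h5 : (Fintype.card I + 2) * ρ = δ / 2 := by
      rw [hρ]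
      field_simp
    unfold Ra
    nlinarith

/-- **The numbers are bounded.** -/
theorem big_up {Q k : ℕ} (hA : IsModel μ (level Q) A) (hQ : 1 ≤ Q) {H : I → Finset ℕ} {α β : I → ℝ}
    (hK : Kd Q k H α β) : ∃ B : ℝ, 0 < B ∧ ∀ᶠ x : ℕ in atTop,
      μ.real {ω | ∃ i, B * Real.log x < Nu A k H α β x i ω} ≤ (x : ℝ) ^ (-(2 : ℝ)) := by
  obtain ⟨B, hB⟩ : ∃ B : ℝ, B = ∑ i, (Real.exp 1 - 1) * MM Q H α β i + 4 := ⟨_, rfl⟩
  have he : 0 < Real.exp 1 - 1 := by
    have := Real.add_one_lt_exp (show (1 : ℝ) ≠ 0 by norm_num)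
    linarith
  have hM := fun i => MM_pos hK i
  have hB0 : 0 < B := by
    rw [hB]
    have : 0 ≤ ∑ i, (Real.exp 1 - 1) * MM Q H α β i := sum_nonneg (fun i _ => mul_nonneg he.le (hM i).le)
    linarith
  refine ⟨B, hB0, ?_⟩
  have h1 := eventually_all.2 (fun i₀ : I => ld_up hA hQ hK (Function.update (fun _ => (1 : ℝ)) i₀ (Real.exp 1))
    (Function.update (fun _ => (0 : ℝ)) i₀ B) (fun i => by
      by_cases hi : i = i₀
      · rw [hi, Function.update_self]
        exact Real.exp_pos _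
      · rw [Function.update_of_ne hi]
        exact one_pos) (le_refl (0 : ℝ)) (one_pos))
  filter_upwards [h1, ev_log 0, ev_log (Fintype.card I), eventually_ge_atTop 1] with x h1 h2 h3 h4
  rw [← exp_log_rpow h4]
  have h5 : {ω | ∃ i, B * Real.log x < Nu A k H α β x i ω} ⊆ ⋃ i₀ ∈ (univ : Finset I),
      {ω | ∀ i, (1 < (Function.update (fun _ => (1 : ℝ)) i₀ (Real.exp 1)) i →
        ((Function.update (fun _ => (0 : ℝ)) i₀ B) i - 0) * Real.log x ≤ Nu A k H α β x i ω) ∧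
      ((Function.update (fun _ => (1 : ℝ)) i₀ (Real.exp 1)) i < 1 →
        (Nu A k H α β x i ω : ℝ) ≤ ((Function.update (fun _ => (0 : ℝ)) i₀ B) i + 0) * Real.log x)} := by
    rintro ω ⟨i₀, hi₀⟩
    rw [Set.mem_iUnion₂]
    refine ⟨i₀, mem_univ _, fun i => ?_⟩
    by_cases hi : i = i₀
    · subst hi
      rw [Function.update_self, Function.update_self, sub_zero]
      exact ⟨fun _ => hi₀.le, fun h => absurd h (by linarith)⟩
    · rw [Function.update_of_ne hi]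
      exact ⟨fun h => absurd h (lt_irrefl _), fun h => absurd h (lt_irrefl _)⟩
  refine (measureReal_mono (μ := μ) h5 (measure_ne_top _ _)).trans ((measureReal_biUnion_finset_le _ _).trans ?_)
  have h6 : ∀ i₀ ∈ (univ : Finset I), μ.real {ω | ∀ i, (1 < (Function.update (fun _ => (1 : ℝ)) i₀ (Real.exp 1)) i →
        ((Function.update (fun _ => (0 : ℝ)) i₀ B) i - 0) * Real.log x ≤ Nu A k H α β x i ω) ∧
      ((Function.update (fun _ => (1 : ℝ)) i₀ (Real.exp 1)) i < 1 →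
        (Nu A k H α β x i ω : ℝ) ≤ ((Function.update (fun _ => (0 : ℝ)) i₀ B) i + 0) * Real.log x)} ≤
        Real.exp (-3 * Real.log x) := by
    intro i₀ _
    refine (h1 i₀).trans (Real.exp_le_exp.2 (mul_le_mul_of_nonneg_right ?_ h2))
    have e1 : ∑ i, (((Function.update (fun _ => (1 : ℝ)) i₀ (Real.exp 1)) i - 1) * MM Q H α β i -
        (Function.update (fun _ => (0 : ℝ)) i₀ B) i * Real.log ((Function.update (fun _ => (1 : ℝ)) i₀ (Real.exp 1)) i)) =
        (Real.exp 1 - 1) * MM Q H α β i₀ - B := by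
      rw [Finset.sum_eq_single i₀]
      · rw [Function.update_self, Function.update_self, Real.log_exp, mul_one]
      · intro i _ hi
        rw [Function.update_of_ne hi, Function.update_of_ne hi]
        simp
      · intro h
        exact absurd (mem_univ _) h
    rw [e1, hB]
    have e2 := single_le_sum (f := fun i => (Real.exp 1 - 1) * MM Q H α β i) (fun i _ => mul_nonneg he.le (hM i).le)
      (mem_univ i₀)
    linarith
  refine (sum_le_sum h6).trans ?_
  rw [sum_const, card_univ, nsmul_eq_mul]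
  have h7 : (Fintype.card I : ℝ) ≤ Real.exp (Real.log x) := by
    have := Real.add_one_le_exp (Real.log x)
    linarith
  calc (Fintype.card I : ℝ) * Real.exp (-3 * Real.log x) ≤ Real.exp (Real.log x) * Real.exp (-3 * Real.log x) :=
        mul_le_mul_of_nonneg_right h7 (Real.exp_pos _).le
    _ = Real.exp (-2 * Real.log x) := by
        rw [← Real.exp_add]
        congr 1
        ring

/-- **No other limit points.** -/
theorem excl {Q k : ℕ} (hA : IsModel μ (level Q) A) (hQ : 1 ≤ Q) {H : I → Finset ℕ} {α β : I → ℝ}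
    (hK : Kd Q k H α β) {ε : ℝ} (hε : 0 < ε) : ∀ᵐ ω ∂μ, ∀ᶠ x : ℕ in atTop, ∃ a : I → ℝ, (∀ i, 0 ≤ a i) ∧
      Ra (MM Q H α β) a ≤ 1 ∧ ω ∈ Bal A k H α β a ε x := by
  obtain ⟨B, hB, hbig⟩ := big_up hA hQ hK
  obtain ⟨M, hMd⟩ : ∃ M, M = MM Q H α β := ⟨_, rfl⟩
  have hM : ∀ i, 0 < M i := fun i => by rw [hMd]; exact MM_pos hK i
  rw [← hMd]
  obtain ⟨S, hS⟩ : ∃ S : Set (I → ℝ), S = {a | (∀ i, 0 ≤ a i ∧ a i ≤ B) ∧
    ∀ b : I → ℝ, (∀ i, 0 ≤ b i) → Ra M b ≤ 1 → ∃ i, ε ≤ |a i - b i|} := ⟨_, rfl⟩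
  have hScomp : IsCompact S := by
    have h1 : IsCompact (Set.Icc (fun _ : I => (0 : ℝ)) (fun _ => B)) := isCompact_Icc
    refine h1.of_isClosed_subset ?_ ?_
    · have h2 : S = (⋂ i, {a : I → ℝ | 0 ≤ a i}) ∩ (⋂ i, {a : I → ℝ | a i ≤ B}) ∩
          ⋂ (b : I → ℝ) (_ : ∀ i, 0 ≤ b i) (_ : Ra M b ≤ 1), ⋃ i, {a : I → ℝ | ε ≤ |a i - b i|} := by
        rw [hS]
        ext a
        simp only [Set.mem_ofPred_eq, Set.mem_inter_iff, Set.mem_iInter, Set.mem_iUnion]
        constructor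
        · rintro ⟨h3, h4⟩
          exact ⟨⟨fun i => (h3 i).1, fun i => (h3 i).2⟩, h4⟩
        · rintro ⟨⟨h3, h3'⟩, h4⟩
          exact ⟨fun i => ⟨h3 i, h3' i⟩, h4⟩
      rw [h2]
      refine IsClosed.inter (IsClosed.inter ?_ ?_) ?_
      · exact isClosed_iInter (fun i => isClosed_le continuous_const (continuous_apply i))
      · exact isClosed_iInter (fun i => isClosed_le (continuous_apply i) continuous_const)
      · refine isClosed_iInter (fun b => isClosed_iInter (fun _ => isClosed_iInter (fun _ => ?_)))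
        exact isClosed_iUnion_of_finite (fun i => isClosed_le continuous_const
          ((continuous_apply i).sub continuous_const).abs)
    · intro a ha
      rw [hS] at ha
      exact ⟨fun i => (ha.1 i).1, fun i => (ha.1 i).2⟩
  have hSR : ∀ a ∈ S, 1 < Ra M a := by
    intro a ha
    rw [hS] at ha
    by_contra hcon
    push Not at hcon
    obtain ⟨i, hi⟩ := ha.2 a (fun i => (ha.1 i).1) hcon
    rw [sub_self, abs_zero] at hi
    linarith
  have hloc : ∀ a ∈ S, ∃ e : ℝ, 0 < e ∧ ∀ᶠ x : ℕ in atTop,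
      μ.real (Bal A k H α β a e x) ≤ (x : ℝ) ^ (-((1 + Ra M a) / 2)) := by
    intro a ha
    have h1 := hSR a ha
    have ha0 : ∀ i, 0 ≤ a i := by
      rw [hS] at ha
      exact fun i => (ha.1 i).1
    obtain ⟨e, he, h2⟩ := ball_up hA hQ hK ha0 (show 0 < (Ra M a - 1) / 2 by linarith)
    refine ⟨e, he, ?_⟩
    rw [← hMd] at h2
    filter_upwards [h2] with x hx
    have e1 : Ra M a - (Ra M a - 1) / 2 = (1 + Ra M a) / 2 := by ring
    rw [e1] at hx
    exact hx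
  choose! e he hball using hloc
  obtain ⟨t, ht, hcov⟩ := hScomp.elim_nhds_subcover (fun a => Metric.ball a (e a)) (fun a ha => Metric.ball_mem_nhds a (he a ha))
  -- the bad events
  have hbc : ∀ᵐ ω ∂μ, ∀ᶠ x : ℕ in atTop, ω ∉ {ω | ∃ i, B * Real.log x < Nu A k H α β x i ω} := by
    refine bc (g := fun x : ℕ => (x : ℝ) ^ (-(2 : ℝ))) ?_ hbig
    exact Real.summable_nat_rpow.2 (by norm_num)
  have hbc2 : ∀ᵐ ω ∂μ, ∀ a ∈ t, ∀ᶠ x : ℕ in atTop, ω ∉ Bal A k H α β a (e a) x := by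
    rw [Finset.eventually_all]
    intro a ha
    refine bc (g := fun x : ℕ => (x : ℝ) ^ (-((1 + Ra M a) / 2))) ?_ (hball a (ht a ha))
    refine Real.summable_nat_rpow.2 ?_
    have := hSR a (ht a ha)
    linarith
  filter_upwards [hbc, hbc2] with ω h1 h2
  have h3 : ∀ᶠ x : ℕ in atTop, ∀ a ∈ t, ω ∉ Bal A k H α β a (e a) x := (Finset.eventually_all t).2 h2
  filter_upwards [h1, h3, ev_log 1] with x g1 g2 g3
  by_contra hcon
  push Not at hcon
  have hx0 : 0 < Real.log x := by linarith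
  obtain ⟨v, hv⟩ : ∃ v : I → ℝ, v = fun i => (Nu A k H α β x i ω : ℝ) / Real.log x := ⟨_, rfl⟩
  have hvi : ∀ i, (Nu A k H α β x i ω : ℝ) = v i * Real.log x := by
    intro i
    rw [hv]
    field_simp
  have hvS : v ∈ S := by
    rw [hS]
    refine ⟨fun i => ⟨?_, ?_⟩, fun b hb0 hb1 => ?_⟩
    · rw [hv]
      positivity
    · by_contra hc
      push Not at hc
      refine g1 ⟨i, ?_⟩
      rw [hvi i]
      exact mul_lt_mul_of_pos_right hc hx0
    · by_contra hc
      push Not at hc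
      refine hcon b hb0 hb1 (fun i => ?_)
      rw [hvi i, ← sub_mul, abs_mul, abs_of_pos hx0]
      exact mul_le_mul_of_nonneg_right (hc i).le hx0.le
  have h4 := hcov hvS
  rw [Set.mem_iUnion₂] at h4
  obtain ⟨a, ha, h5⟩ := h4
  refine g2 a ha (fun i => ?_)
  rw [hvi i, ← sub_mul, abs_mul, abs_of_pos hx0]
  refine mul_le_mul_of_nonneg_right ?_ hx0.le
  rw [Metric.mem_ball] at h5
  have h6 := (dist_le_pi_dist v a i)
  rw [Real.dist_eq] at h6
  linarith

end Pool.Agent.Q106.ER
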