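import Pool.Agent.Q106.ER.Exact
import Pool.Agent.Q106.ZO.Sys
import Pool.Agent.Q106.UR.Mean

/-!
# The windows of length `λ (log x)^(k+1)`
-/

set_option autoImplicit false

namespace Pool.Agent.Q106.ER

open Finset MeasureTheory ProbabilityTheory Filter Pool.Agent.Q120.GM Pool.Agent.Q106.UR
open Pool.Agent.Q106.ZO (nei mem_nei)

variable {I : Type*} [Fintype I] [DecidableEq I]

/-- Finitely many patterns with windows, disjoint for equal patterns. -/
structure Kd (Q k : ℕ) (H : I → Finset ℕ) (α β : I → ℝ) : Prop where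
  zero : ∀ i, 0 ∈ H i
  card : ∀ i, (H i).card = k
  pos : ∀ i, 0 < sing Q (H i)
  a0 : ∀ i, 0 ≤ α i
  ab : ∀ i, α i < β i
  dis : ∀ i j, i ≠ j → H i ≠ H j ∨ β i ≤ α j ∨ β j ≤ α i

/-- The scale. -/
noncomputable def sc (k x : ℕ) : ℝ := Real.log x ^ (k + 1)

/-- The positions in the window. -/
noncomputable def Po (k : ℕ) (a b : ℝ) (x : ℕ) : Finset ℕ := Ioc ⌊(x : ℝ) + a * sc k x⌋₊ ⌊(x : ℝ) + b * sc k x⌋₊

/-- The indices. -/
noncomputable def JJ (k : ℕ) (α β : I → ℝ) (x : ℕ) : Finset (I × ℕ) :=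
  univ.biUnion (fun i => (Po k (α i) (β i) x).image (fun m => (i, m)))

/-- The sets. -/
def TT (H : I → Finset ℕ) (e : I × ℕ) : Finset ℕ := tl e.2 (H e.1)

theorem mem_JJ {k : ℕ} {α β : I → ℝ} {x : ℕ} {e : I × ℕ} : e ∈ JJ k α β x ↔ e.2 ∈ Po k (α e.1) (β e.1) x := by
  unfold JJ
  simp only [mem_biUnion, mem_image, mem_univ, true_and]
  constructor
  · rintro ⟨i, m, hm, rfl⟩
    exact hm
  · intro h
    exact ⟨e.1, e.2, h, rfl⟩

theorem sc_nonneg (k x : ℕ) : 0 ≤ sc k x := pow_nonneg (Real.log_natCast_nonneg x) _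

theorem mem_Po {k : ℕ} {a b : ℝ} (ha : 0 ≤ a) (hb : 0 ≤ b) {x m : ℕ} : m ∈ Po k a b x ↔
    (x : ℝ) + a * sc k x < m ∧ (m : ℝ) ≤ x + b * sc k x := by
  unfold Po
  have h1 : 0 ≤ (x : ℝ) + a * sc k x := add_nonneg (Nat.cast_nonneg x) (mul_nonneg ha (sc_nonneg k x))
  have h2 : 0 ≤ (x : ℝ) + b * sc k x := add_nonneg (Nat.cast_nonneg x) (mul_nonneg hb (sc_nonneg k x))
  rw [mem_Ioc, Nat.floor_lt h1, Nat.le_floor_iff h2]

theorem filter_JJ (k : ℕ) (α β : I → ℝ) (x : ℕ) (i : I) :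
    (JJ k α β x).filter (fun e => e.1 = i) = (Po k (α i) (β i) x).image (fun m => (i, m)) := by
  ext e
  rw [mem_filter, mem_JJ, mem_image]
  constructor
  · rintro ⟨h1, h2⟩
    refine ⟨e.2, ?_, ?_⟩
    · rw [← h2]
      exact h1
    · rw [← h2]
  · rintro ⟨m, hm, rfl⟩
    exact ⟨hm, rfl⟩

theorem me_JJ (p : ℕ → ℝ) (k : ℕ) (H : I → Finset ℕ) (α β : I → ℝ) (x : ℕ) (i : I) :
    me p (JJ k α β x) (TT H) Prod.fst i = ∑ m ∈ Po k (α i) (β i) x, pT p (tl m (H i)) := by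
  unfold me
  have h1 : (JJ k α β x).filter (fun e => Prod.fst e = i) = (Po k (α i) (β i) x).image (fun m => (i, m)) :=
    filter_JJ k α β x i
  rw [h1, sum_image (fun m _ m' _ h => (Prod.mk.injEq _ _ _ _ ▸ h).2)]
  rfl

/-- The cardinality of the window. -/
theorem Po_card {k : ℕ} {a b : ℝ} (ha : 0 ≤ a) (hab : a < b) (x : ℕ) :
    (b - a) * sc k x - 1 ≤ ((⌊(x : ℝ) + b * sc k x⌋₊ - ⌊(x : ℝ) + a * sc k x⌋₊ : ℕ) : ℝ) ∧
    ((⌊(x : ℝ) + b * sc k x⌋₊ - ⌊(x : ℝ) + a * sc k x⌋₊ : ℕ) : ℝ) ≤ (b - a) * sc k x + 1 := by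
  have hs := sc_nonneg k x
  have h1 : 0 ≤ (x : ℝ) + a * sc k x := add_nonneg (Nat.cast_nonneg x) (mul_nonneg ha hs)
  have h2 : 0 ≤ (x : ℝ) + b * sc k x := add_nonneg (Nat.cast_nonneg x) (mul_nonneg (ha.trans hab.le) hs)
  have h3 : (x : ℝ) + a * sc k x ≤ (x : ℝ) + b * sc k x := by
    have := mul_le_mul_of_nonneg_right hab.le hs
    linarith
  have h4 := Nat.floor_mono h3
  rw [Nat.cast_sub h4]
  have e1 := Nat.floor_le h1
  have e2 := Nat.floor_le h2
  have e3 := Nat.lt_floor_add_one ((x : ℝ) + a * sc k x)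
  have e4 := Nat.lt_floor_add_one ((x : ℝ) + b * sc k x)
  constructor
  · linarith
  · linarith

theorem inv_pow_ge {t c : ℝ} (ht : 1 ≤ t) (hc0 : 0 ≤ c) (hc1 : c ≤ 1) (k : ℕ) :
    (1 - k * c / t) / t ^ k ≤ 1 / (t + c) ^ k := by
  have ht0 : 0 < t := by linarith
  have h1 : (1 : ℝ) - k * c / t ≤ (1 - c / t) ^ k := by
    have hct : c / t ≤ 1 := by
      rw [div_le_one ht0]
      linarith
    have := one_add_mul_le_pow (show (-2 : ℝ) ≤ -(c / t) by linarith) k
    have e1 : (1 : ℝ) + k * -(c / t) = 1 - k * c / t := by ring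
    rw [e1, ← sub_eq_add_neg] at this
    exact this
  have h2 : (t + c) ^ k * (1 - k * c / t) ≤ t ^ k := by
    have e1 : (t + c) ^ k * (1 - k * c / t) ≤ (t + c) ^ k * (1 - c / t) ^ k :=
      mul_le_mul_of_nonneg_left h1 (by positivity)
    have e2 : (t + c) ^ k * (1 - c / t) ^ k = (t - c ^ 2 / t) ^ k := by
      rw [← mul_pow]
      congr 1
      field_simp
      ring
    have e3 : (t - c ^ 2 / t) ^ k ≤ t ^ k := by
      refine pow_le_pow_left₀ ?_ ?_ k
      · rw [sub_nonneg, div_le_iff₀ ht0]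
        nlinarith
      · have : 0 ≤ c ^ 2 / t := by positivity
        linarith
    linarith
  rw [div_le_div_iff₀ (by positivity) (by positivity)]
  linarith

theorem ev_small_scale (k : ℕ) (b : ℝ) (C : ℝ) : ∀ᶠ x : ℕ in atTop, (x : ℝ) + b * sc k x + C ≤ 2 * x := by
  have h1 := ev_log_pow (k + 1) (show (0 : ℝ) < 1 / (2 * (|b| + 1)) by positivity)
  filter_upwards [h1, eventually_ge_atTop ⌈2 * |C|⌉₊] with x h2 h3
  have h4 : 2 * |C| ≤ x := (Nat.le_ceil _).trans (by exact_mod_cast h3)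
  have h5 : b * sc k x ≤ (|b| + 1) * (1 / (2 * (|b| + 1)) * x) := by
    refine mul_le_mul ?_ h2 (sc_nonneg k x) (by positivity)
    have := le_abs_self b
    linarith
  have h6 : (|b| + 1) * (1 / (2 * (|b| + 1)) * (x : ℝ)) = x / 2 := by
    have : |b| + 1 ≠ 0 := by positivity
    field_simp
  have h7 := le_abs_self C
  linarith

/-- **The means.** -/
theorem mean_win {Q k : ℕ} (hQ : 1 ≤ Q) {H : Finset ℕ} (hk : H.card = k) {a b : ℝ} (ha : 0 ≤ a)
    (hab : a < b) : ∃ C : ℝ, 0 ≤ C ∧ ∀ᶠ x : ℕ in atTop,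
      |∑ m ∈ Po k a b x, pT (level Q) (tl m H) - (b - a) * sing Q H * Real.log x| ≤ C := by
  obtain ⟨σ, hσ⟩ : ∃ σ, σ = sing Q H := ⟨_, rfl⟩
  have hσ0 : 0 ≤ σ := by
    rw [hσ]
    unfold sing
    positivity
  have hba : 0 < b - a := by linarith
  refine ⟨(b - a) * σ * k + σ * k + (1 + Q) * σ, by positivity, ?_⟩
  obtain ⟨h, hh⟩ : ∃ h, h = H.sup id := ⟨_, rfl⟩
  filter_upwards [ev_small_scale k b (h + 1), log_tendsto.eventually_ge_atTop 1, log_tendsto.eventually_ge_atTop (qq Q),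
    eventually_ge_atTop 1, log_tendsto.eventually_ge_atTop ((1 + Q) / (b - a))] with x h1 h2 h3 h4 h5
  have hx0 : (0 : ℝ) < x := by exact_mod_cast h4
  have hs := sc_nonneg k x
  obtain ⟨t, ht⟩ : ∃ t, t = Real.log x := ⟨_, rfl⟩
  rw [← ht] at h2 h3 h5 ⊢
  obtain ⟨u, hu⟩ : ∃ u, u = ⌊(x : ℝ) + a * sc k x⌋₊ := ⟨_, rfl⟩
  obtain ⟨v, hv⟩ : ∃ v, v = ⌊(x : ℝ) + b * sc k x⌋₊ := ⟨_, rfl⟩
  have hc := Po_card (k := k) ha hab x
  rw [← hu, ← hv] at hc
  have huv : u ≤ v := by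
    rw [hu, hv]
    refine Nat.floor_mono ?_
    have := mul_le_mul_of_nonneg_right hab.le hs
    linarith
  have hP : Po k a b x = Ico (u + 1) (u + 1 + (v - u)) := by
    unfold Po
    rw [← hu, ← hv]
    ext m
    rw [mem_Ioc, mem_Ico]
    omega
  have hux : (x : ℝ) ≤ ((u + 1 : ℕ) : ℝ) := by
    have e1 := Nat.lt_floor_add_one ((x : ℝ) + a * sc k x)
    rw [← hu] at e1
    have : 0 ≤ a * sc k x := mul_nonneg ha hs
    push_cast
    linarith
  have hvx : (v : ℝ) ≤ x + b * sc k x := by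
    rw [hv]
    refine Nat.floor_le ?_
    have : 0 ≤ b * sc k x := mul_nonneg (ha.trans hab.le) hs
    linarith
  have hL : sc k x = t ^ k * t := by
    unfold sc
    rw [← ht, pow_succ]
  have up := sum_tuple_le (Q := Q) hQ (H := H) (x := (x : ℝ)) (by rw [← ht]; linarith) hx0 (a := u + 1) (w := v - u) hux
  have lo := le_sum_tuple (Q := Q) hQ (H := H) (x := (x : ℝ)) (y := 2 * x) (by rw [← ht]; linarith) (by rw [← ht]; linarith)
    hx0 (a := u + 1) (w := v - u) hux (fun b' hb' => by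
      have e1 : b' ≤ h := by
        rw [hh]
        exact Finset.le_sup (f := id) hb'
      have e1' : (b' : ℝ) ≤ h := by exact_mod_cast e1
      rw [Nat.cast_sub huv]
      push_cast
      linarith) (by linarith)
  have hsum : ∑ m ∈ Po k a b x, pT (level Q) (tl m H) = ∑ n ∈ Ico (u + 1) (u + 1 + (v - u)), ∏ m ∈ tl n H, level Q m := by
    rw [hP]
    rfl
  rw [hsum]
  rw [← hσ, ← ht, hk] at up
  have hl2 : Real.log (2 * x) = t + Real.log 2 := by
    rw [Real.log_mul (by norm_num) hx0.ne', ht]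
    ring
  rw [← hσ, hl2, hk] at lo
  have htk : 0 < t ^ k := by positivity
  have ht1 : (1 : ℝ) ≤ t ^ k := one_le_pow₀ h2
  rw [← hσ, abs_le]
  constructor
  · -- lower bound
    have e1 := inv_pow_ge h2 (Real.log_nonneg (by norm_num : (1 : ℝ) ≤ 2)) (by
      have := Real.log_two_lt_d9
      linarith) k
    have e2 : (0 : ℝ) ≤ ((v - u : ℕ) : ℝ) - Q := by
      have f1 : (1 + Q : ℝ) ≤ (b - a) * t := by
        rw [div_le_iff₀ hba] at h5
        linarith
      have f2 : (b - a) * t ≤ (b - a) * sc k x := by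
        refine mul_le_mul_of_nonneg_left ?_ hba.le
        rw [hL]
        nlinarith
      linarith [hc.1]
    have e3 : (((v - u : ℕ) : ℝ) - Q) * σ * ((1 - k * Real.log 2 / t) / t ^ k) ≤
        (((v - u : ℕ) : ℝ) - Q) * σ / (t + Real.log 2) ^ k := by
      rw [div_eq_mul_one_div ((((v - u : ℕ) : ℝ) - Q) * σ)]
      exact mul_le_mul_of_nonneg_left e1 (mul_nonneg e2 hσ0)
    have e4 : (b - a) * sc k x - 1 - Q ≤ ((v - u : ℕ) : ℝ) - Q := by linarith [hc.1]
    have hlog2 : Real.log 2 ≤ 1 := by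
      have := Real.log_two_lt_d9
      linarith
    have hlog20 : 0 ≤ Real.log 2 := Real.log_nonneg (by norm_num)
    -- `(w - Q) / t^k ≤ (b - a) t + 1` and `≥ (b-a) t - 1 - Q`
    have e5 : (b - a) * t - (1 + Q) ≤ (((v - u : ℕ) : ℝ) - Q) / t ^ k := by
      rw [le_div_iff₀ htk]
      have f1 : ((b - a) * t - (1 + Q)) * t ^ k = (b - a) * sc k x - (1 + Q) * t ^ k := by rw [hL]; ring
      have f2 : (1 + Q : ℝ) ≤ (1 + Q) * t ^ k := by
        have : (0 : ℝ) ≤ 1 + Q := by positivity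
        nlinarith
      rw [f1]
      linarith
    have e6 : (((v - u : ℕ) : ℝ) - Q) / t ^ k ≤ (b - a) * t + 1 := by
      rw [div_le_iff₀ htk]
      have f1 : ((b - a) * t + 1) * t ^ k = (b - a) * sc k x + t ^ k := by rw [hL]; ring
      have f2 : (0 : ℝ) ≤ Q := Nat.cast_nonneg Q
      rw [f1]
      linarith [hc.2]
    have e7 : (((v - u : ℕ) : ℝ) - Q) * σ * ((1 - k * Real.log 2 / t) / t ^ k) =
        σ * ((((v - u : ℕ) : ℝ) - Q) / t ^ k) - σ * (k * Real.log 2 / t) * ((((v - u : ℕ) : ℝ) - Q) / t ^ k) := by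
      ring
    have e8 : σ * (k * Real.log 2 / t) * ((((v - u : ℕ) : ℝ) - Q) / t ^ k) ≤ σ * (k * Real.log 2 / t) * ((b - a) * t + 1) :=
      mul_le_mul_of_nonneg_left e6 (by positivity)
    have e9 : σ * (k * Real.log 2 / t) * ((b - a) * t + 1) ≤ (b - a) * σ * k + σ * k / t := by
      have f1 : σ * (k * Real.log 2 / t) * ((b - a) * t + 1) = Real.log 2 * ((b - a) * σ * k + σ * k / t) := by
        have : t ≠ 0 := by linarith
        field_simp
      rw [f1]
      have f2 : 0 ≤ (b - a) * σ * k + σ * k / t := by positivity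
      nlinarith
    have e10 : σ * ((b - a) * t - (1 + Q)) ≤ σ * ((((v - u : ℕ) : ℝ) - Q) / t ^ k) := mul_le_mul_of_nonneg_left e5 hσ0
    have e11 : σ * k / t ≤ σ * k := div_le_self (by positivity) h2
    linarith
  · -- upper bound
    have e1 : (((v - u : ℕ) : ℝ) + Q) * σ / t ^ k ≤ (b - a) * σ * t + (1 + Q) * σ := by
      rw [div_le_iff₀ htk]
      have f1 : ((b - a) * σ * t + (1 + Q) * σ) * t ^ k = ((b - a) * sc k x + (1 + Q) * t ^ k) * σ := by rw [hL]; ring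
      rw [f1]
      refine mul_le_mul_of_nonneg_right ?_ hσ0
      have f2 : (1 + Q : ℝ) ≤ (1 + Q) * t ^ k := by
        have : (0 : ℝ) ≤ 1 + Q := by positivity
        nlinarith
      linarith [hc.2]
    have e2 : 0 ≤ (b - a) * σ * k := by positivity
    have e3 : 0 ≤ σ * k := by positivity
    linarith

/-- The constant of the window. -/
noncomputable def MM (Q : ℕ) (H : I → Finset ℕ) (α β : I → ℝ) (i : I) : ℝ := (β i - α i) * sing Q (H i)

theorem MM_pos {Q k : ℕ} {H : I → Finset ℕ} {α β : I → ℝ} (hK : Kd Q k H α β) (i : I) : 0 < MM Q H α β i :=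
  mul_pos (by linarith [hK.ab i]) (hK.pos i)

theorem means {Q k : ℕ} (hQ : 1 ≤ Q) {H : I → Finset ℕ} {α β : I → ℝ} (hK : Kd Q k H α β) :
    ∃ C : ℝ, 0 ≤ C ∧ ∀ᶠ x : ℕ in atTop, ∀ i,
      |me (level Q) (JJ k α β x) (TT H) Prod.fst i - MM Q H α β i * Real.log x| ≤ C := by
  have h1 : ∀ i, ∃ C : ℝ, 0 ≤ C ∧ ∀ᶠ x : ℕ in atTop,
      |me (level Q) (JJ k α β x) (TT H) Prod.fst i - MM Q H α β i * Real.log x| ≤ C := by
    intro i
    obtain ⟨C, hC, h⟩ := mean_win hQ (hK.card i) (hK.a0 i) (hK.ab i)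
    refine ⟨C, hC, ?_⟩
    filter_upwards [h] with x hx
    rw [me_JJ]
    exact hx
  choose C hC h using h1
  refine ⟨∑ i, C i, sum_nonneg (fun i _ => hC i), ?_⟩
  filter_upwards [eventually_all.2 h] with x hx i
  exact (hx i).trans (single_le_sum (f := C) (fun i _ => hC i) (mem_univ i))

/-- The patterns of the indices are different sets. -/
theorem TT_inj {Q k : ℕ} {H : I → Finset ℕ} {α β : I → ℝ} (hK : Kd Q k H α β) {x : ℕ} {e f : I × ℕ}
    (he : e ∈ JJ k α β x) (hf : f ∈ JJ k α β x) (h : TT H e = TT H f) : e = f := by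
  obtain ⟨i, m⟩ := e
  obtain ⟨j, n⟩ := f
  rw [mem_JJ] at he hf
  have hmin : ∀ (i j : I) (m n : ℕ), TT H (i, m) = TT H (j, n) → n ≤ m := by
    intro i j m n h
    have h1 : m ∈ TT H (i, m) := mem_tl.2 ⟨0, hK.zero i, rfl⟩
    rw [h] at h1
    obtain ⟨b, _, hb⟩ := mem_tl.1 h1
    omega
  have hmn : m = n := le_antisymm (hmin j i n m h.symm) (hmin i j m n h)
  subst hmn
  have hH : H i = H j := by
    have h2 : tl m (H i) = tl m (H j) := h
    ext b
    constructor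
    · intro hb
      have h3 : m + b ∈ tl m (H i) := mem_tl.2 ⟨b, hb, rfl⟩
      rw [h2] at h3
      obtain ⟨b', hb', e⟩ := mem_tl.1 h3
      have : b = b' := by omega
      rw [this]
      exact hb'
    · intro hb
      have h3 : m + b ∈ tl m (H j) := mem_tl.2 ⟨b, hb, rfl⟩
      rw [← h2] at h3
      obtain ⟨b', hb', e⟩ := mem_tl.1 h3
      have : b = b' := by omega
      rw [this]
      exact hb'
  by_cases hij : i = j
  · rw [hij]
  · exfalso
    have e1 := (mem_Po (hK.a0 i) ((hK.a0 i).trans (hK.ab i).le)).1 he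
    have e2 := (mem_Po (hK.a0 j) ((hK.a0 j).trans (hK.ab j).le)).1 hf
    have hs := sc_nonneg k x
    rcases hK.dis i j hij with h3 | h3 | h3
    · exact h3 hH
    · have := mul_le_mul_of_nonneg_right h3 hs
      have g1 := e1.2
      have g2 := e2.1
      simp only at g1 g2
      linarith
    · have := mul_le_mul_of_nonneg_right h3 hs
      have g1 := e2.2
      have g2 := e1.1
      simp only at g1 g2
      linarith

theorem TT_card {Q k : ℕ} {H : I → Finset ℕ} {α β : I → ℝ} (hK : Kd Q k H α β) (e : I × ℕ) : (TT H e).card = k := by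
  unfold TT
  rw [card_tl, hK.card]

theorem k_pos {Q k : ℕ} {H : I → Finset ℕ} {α β : I → ℝ} (hK : Kd Q k H α β) (i : I) : 1 ≤ k := by
  rw [← hK.card i]
  exact card_pos.2 ⟨0, hK.zero i⟩

theorem TT_ge {k : ℕ} {H : I → Finset ℕ} {α β : I → ℝ} (ha : ∀ i, 0 ≤ α i) (hb : ∀ i, 0 ≤ β i) {x : ℕ} {e : I × ℕ}
    (he : e ∈ JJ k α β x) {b : ℕ} (hb' : b ∈ TT H e) : (x : ℝ) ≤ b := by
  rw [mem_JJ] at he
  have e1 := ((mem_Po (ha e.1) (hb e.1)).1 he).1
  have hs := sc_nonneg k x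
  obtain ⟨h, _, hh⟩ := mem_tl.1 hb'
  have e2 : 0 ≤ α e.1 * sc k x := mul_nonneg (ha e.1) hs
  have e3 : ((e.2 : ℕ) : ℝ) ≤ b := by
    rw [hh]
    push_cast
    have : (0 : ℝ) ≤ h := Nat.cast_nonneg h
    linarith
  linarith

/-- At most `|I| k^2` sets meet a given one. -/
theorem nei_TT {Q k : ℕ} {H : I → Finset ℕ} {α β : I → ℝ} (hK : Kd Q k H α β) (J : Finset (I × ℕ)) (e : I × ℕ) :
    (nei J (TT H) (TT H e)).card ≤ Fintype.card I * k ^ 2 := by
  have h1 : nei J (TT H) (TT H e) ⊆ (univ : Finset I).biUnion (fun i => ((H e.1) ×ˢ (H i)).image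
      (fun q : ℕ × ℕ => (i, e.2 + q.1 - q.2))) := by
    intro f hf
    rw [mem_nei, Finset.not_disjoint_iff] at hf
    obtain ⟨_, b, hb1, hb2⟩ := hf
    obtain ⟨h, hh, e1⟩ := mem_tl.1 hb1
    obtain ⟨h', hh', e2⟩ := mem_tl.1 hb2
    rw [mem_biUnion]
    refine ⟨f.1, mem_univ _, mem_image.2 ⟨(h', h), mem_product.2 ⟨hh', hh⟩, ?_⟩⟩
    show (f.1, e.2 + h' - h) = f
    have : e.2 + h' - h = f.2 := by omega
    rw [this]
  refine (card_le_card h1).trans ?_
  refine (card_biUnion_le_card_mul _ _ (k ^ 2) (fun i _ => ?_)).trans (le_of_eq ?_)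
  · refine card_image_le.trans (le_of_eq ?_)
    rw [card_product, hK.card, hK.card, sq]
  · rw [card_univ]

theorem cont_TT {Q k : ℕ} {H : I → Finset ℕ} {α β : I → ℝ} (hK : Kd Q k H α β) (J : Finset (I × ℕ)) (b : ℕ) :
    (J.filter (fun e => b ∈ TT H e)).card ≤ Fintype.card I * k ^ 2 := by
  have h1 : J.filter (fun e => b ∈ TT H e) ⊆ (univ : Finset I).biUnion (fun i => (H i).image
      (fun h : ℕ => (i, b - h))) := by
    intro f hf
    rw [mem_filter] at hf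
    obtain ⟨h, hh, e1⟩ := mem_tl.1 hf.2
    rw [mem_biUnion]
    refine ⟨f.1, mem_univ _, mem_image.2 ⟨h, hh, ?_⟩⟩
    have : b - h = f.2 := by omega
    rw [this]
  refine (card_le_card h1).trans ?_
  refine (card_biUnion_le_card_mul _ _ (k ^ 2) (fun i _ => ?_)).trans (le_of_eq ?_)
  · refine card_image_le.trans ?_
    rw [hK.card]
    exact Nat.le_self_pow (by norm_num) k
  · rw [card_univ]

theorem card_JJ {Q k : ℕ} {H : I → Finset ℕ} {α β : I → ℝ} (hK : Kd Q k H α β) (x : ℕ) :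
    ((JJ k α β x).card : ℝ) ≤ ∑ i, ((β i - α i) * sc k x + 1) := by
  unfold JJ
  have h1 : ((univ.biUnion (fun i => (Po k (α i) (β i) x).image (fun m => (i, m)))).card : ℝ) ≤
      ∑ i, (((Po k (α i) (β i) x).image (fun m => (i, m))).card : ℝ) := by exact_mod_cast card_biUnion_le
  refine h1.trans (sum_le_sum (fun i _ => ?_))
  have h2 : (((Po k (α i) (β i) x).image (fun m => (i, m))).card : ℝ) ≤ ((Po k (α i) (β i) x).card : ℝ) := by
    exact_mod_cast card_image_le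
  refine h2.trans ?_
  unfold Po
  rw [Nat.card_Ioc]
  exact (Po_card (hK.a0 i) (hK.ab i) x).2

/-- The conflicts. -/
theorem confl {Q k : ℕ} {H : I → Finset ℕ} {α β : I → ℝ} (hK : Kd Q k H α β) :
    ∃ D : ℝ, 0 ≤ D ∧ ∀ᶠ x : ℕ in atTop,
      ∑ e ∈ cf (JJ k α β x) (TT H), pT (level Q) (TT H e.1 ∪ TT H e.2) ≤ D := by
  obtain ⟨B, hB⟩ : ∃ B : ℝ, B = ∑ i, ((β i - α i) + 1) := ⟨_, rfl⟩
  have hB0 : 0 ≤ B := by
    rw [hB]
    exact sum_nonneg (fun i _ => by linarith [hK.ab i])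
  have hq : 0 ≤ qq Q := by unfold qq; positivity
  obtain ⟨K, hKd⟩ : ∃ K : ℝ, K = ((Fintype.card I * k ^ 2 : ℕ) : ℝ) := ⟨_, rfl⟩
  have hK0 : 0 ≤ K := by rw [hKd]; exact Nat.cast_nonneg _
  refine ⟨K * B * qq Q ^ (k + 1), by positivity, ?_⟩
  filter_upwards [log_tendsto.eventually_ge_atTop 1, eventually_ge_atTop 1] with x h2 h4
  have hx0 : (0 : ℝ) < x := by exact_mod_cast h4
  obtain ⟨t, ht⟩ : ∃ t, t = Real.log x := ⟨_, rfl⟩
  rw [← ht] at h2
  have hterm : ∀ e ∈ cf (JJ k α β x) (TT H), pT (level Q) (TT H e.1 ∪ TT H e.2) ≤ (qq Q / t) ^ (k + 1) := by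
    intro e he
    unfold cf at he
    rw [mem_filter, mem_product] at he
    rw [ht]
    refine Pool.Agent.Q106.ZO.pT_le_pow (by rw [← ht]; linarith) hx0 (fun u hu => ?_) ?_
    · rw [mem_union] at hu
      rcases hu with hu | hu
      · exact TT_ge hK.a0 (fun i => (hK.a0 i).trans (hK.ab i).le) he.1.1 hu
      · exact TT_ge hK.a0 (fun i => (hK.a0 i).trans (hK.ab i).le) he.1.2 hu
    · by_contra hcon
      push Not at hcon
      have e1 : TT H e.1 = TT H e.1 ∪ TT H e.2 :=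
        eq_of_subset_of_card_le subset_union_left (by rw [TT_card hK]; omega)
      have e2 : TT H e.2 = TT H e.1 ∪ TT H e.2 :=
        eq_of_subset_of_card_le subset_union_right (by rw [TT_card hK]; omega)
      exact he.2.1 (TT_inj hK he.1.1 he.1.2 (e1.trans e2.symm))
  have hcf : ((cf (JJ k α β x) (TT H)).card : ℝ) ≤ K * (JJ k α β x).card := by
    have e1 : cf (JJ k α β x) (TT H) ⊆ (JJ k α β x).biUnion (fun e => (nei (JJ k α β x) (TT H) (TT H e)).image
        (fun f => (e, f))) := by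
      intro e he
      unfold cf at he
      rw [mem_filter, mem_product] at he
      rw [mem_biUnion]
      exact ⟨e.1, he.1.1, mem_image.2 ⟨e.2, mem_nei.2 ⟨he.1.2, fun h => he.2.2 h.symm⟩, rfl⟩⟩
    have e2 := (card_le_card e1).trans (card_biUnion_le_card_mul _ _ (Fintype.card I * k ^ 2) (fun e _ =>
      card_image_le.trans (nei_TT hK _ e)))
    rw [hKd, mul_comm]
    exact_mod_cast e2
  have hJ : ((JJ k α β x).card : ℝ) ≤ B * sc k x := by
    refine (card_JJ hK x).trans ?_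
    rw [hB, sum_mul]
    refine sum_le_sum (fun i _ => ?_)
    have : (1 : ℝ) ≤ sc k x := by
      unfold sc
      rw [← ht]
      exact one_le_pow₀ h2
    nlinarith
  have e1 := sum_le_sum hterm
  rw [sum_const, nsmul_eq_mul] at e1
  refine e1.trans ?_
  have e2 : sc k x = t ^ (k + 1) := by unfold sc; rw [← ht]
  have e3 : (0 : ℝ) < t ^ (k + 1) := by positivity
  calc ((cf (JJ k α β x) (TT H)).card : ℝ) * (qq Q / t) ^ (k + 1) ≤ (K * (B * sc k x)) * (qq Q / t) ^ (k + 1) := by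
        refine mul_le_mul_of_nonneg_right (hcf.trans (mul_le_mul_of_nonneg_left hJ hK0)) (by positivity)
    _ = K * B * qq Q ^ (k + 1) := by
        rw [e2, div_pow]
        field_simp

end Pool.Agent.Q106.ER
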