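import Pool.Agent.Q106.UR.Up

/-!
# Joint upper and lower tails for several kinds of weakly dependent events
-/

set_option autoImplicit false

namespace Pool.Agent.Q106.ER

open Finset MeasureTheory ProbabilityTheory Filter Pool.Agent.Q120.GM Pool.Agent.Q106.UR

variable {Ω : Type*} [MeasurableSpace Ω] {μ : Measure Ω} [IsProbabilityMeasure μ] {ι κ : Type*} [DecidableEq ι]
  [DecidableEq κ] {p : ι → ℝ} {A : Ω → Set ι}

omit [MeasurableSpace Ω] in
theorem all_biUnion (S : Finset κ) (T : κ → Finset ι) (ω : Ω) :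
    ω ∈ all A (S.biUnion T) ↔ ∀ j ∈ S, ω ∈ all A (T j) := by
  constructor
  · intro h j hj i hi
    exact h i (mem_biUnion.2 ⟨j, hj, hi⟩)
  · intro h i hi
    rw [mem_biUnion] at hi
    obtain ⟨j, hj, hi⟩ := hi
    exact h j hj i hi

theorem int_ind_none (hA : IsModel μ p A) (U : Finset ι) (S : Finset κ) (T : κ → Finset ι) :
    Integrable (fun ω => ind A U ω * (none A S T).indicator (fun _ => (1 : ℝ)) ω) μ ∧
    ∫ ω, ind A U ω * (none A S T).indicator (fun _ => (1 : ℝ)) ω ∂μ ≤ pT p U * μ.real (none A S T) := by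
  have h0 : (fun ω => ind A U ω * (none A S T).indicator (fun _ => (1 : ℝ)) ω) =
      (all A U ∩ none A S T).indicator (fun _ => (1 : ℝ)) := by
    funext ω
    unfold ind
    by_cases h1 : ω ∈ all A U
    · by_cases h2 : ω ∈ none A S T
      · rw [Set.indicator_of_mem h1, Set.indicator_of_mem h2, Set.indicator_of_mem (Set.mem_inter h1 h2), mul_one]
      · have h3 : ω ∉ all A U ∩ none A S T := fun h => h2 h.2
        rw [Set.indicator_of_notMem h2, Set.indicator_of_notMem h3, mul_zero]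
    · have h3 : ω ∉ all A U ∩ none A S T := fun h => h1 h.1
      rw [Set.indicator_of_notMem h1, Set.indicator_of_notMem h3, zero_mul]
  have hm : MeasurableSet (all A U ∩ none A S T) := (meas_all hA U).inter (meas_none hA S T)
  rw [h0]
  refine ⟨(integrable_const 1).indicator hm, ?_⟩
  rw [integral_indicator_const _ hm, smul_eq_mul, mul_one]
  refine (inter_none_le hA U S T).trans (le_of_eq ?_)
  rw [real_all hA]
  rfl

theorem up_sum (hA : IsModel μ p A) (J : Finset κ) (T : κ → Finset ι) (z : κ → ℝ) {M : ℝ}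
    (hz : ∀ j ∈ J, 1 ≤ z j) (hM : ∑ j ∈ J, (z j - 1) * pT p (T j) ≤ M) :
    ∑ S ∈ J.powerset.filter (fun S => ∀ i ∈ S, ∀ j ∈ S, i ≠ j → Disjoint (T i) (T j)),
      (∏ j ∈ S, (z j - 1)) * pT p (S.biUnion T) ≤ Real.exp M := by
  have h1 : ∀ S ∈ J.powerset.filter (fun S => ∀ i ∈ S, ∀ j ∈ S, i ≠ j → Disjoint (T i) (T j)),
      (∏ j ∈ S, (z j - 1)) * pT p (S.biUnion T) = ∏ j ∈ S, ((z j - 1) * pT p (T j)) := by
    intro S hS
    rw [mem_filter] at hS
    rw [prod_mul_distrib]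
    congr 1
    unfold pT
    exact prod_biUnion (fun i hi j hj hij => hS.2 i hi j hj hij)
  rw [sum_congr rfl h1]
  refine (sum_le_sum_of_subset_of_nonneg (filter_subset _ _) (fun S hS _ => prod_nonneg (fun j hj => ?_))).trans ?_
  · have := hz j (mem_powerset.1 hS hj)
    exact mul_nonneg (by linarith) (pT_nonneg hA _)
  have h3 := Finset.prod_add (fun j : κ => (z j - 1) * pT p (T j)) (fun _ => (1 : ℝ)) J
  simp only [prod_const_one, mul_one] at h3
  rw [← h3]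
  have h4 : ∏ j ∈ J, ((z j - 1) * pT p (T j) + 1) ≤ ∏ j ∈ J, Real.exp ((z j - 1) * pT p (T j)) := by
    refine prod_le_prod (fun j hj => ?_) (fun j _ => Real.add_one_le_exp _)
    have := mul_nonneg (show (0 : ℝ) ≤ z j - 1 by linarith [hz j hj]) (pT_nonneg hA (T j))
    linarith
  refine h4.trans ?_
  rw [← Real.exp_sum]
  exact Real.exp_le_exp.2 hM

theorem down_sum (hA : IsModel μ p A) (J : Finset κ) (T : κ → Finset ι) (z : κ → ℝ) {m D δ : ℝ}
    (h0 : ∀ j ∈ J, 0 ≤ z j) (h1 : ∀ j ∈ J, z j ≤ 1) (hm : m ≤ ∑ j ∈ J, (1 - z j) * pT p (T j))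
    (hδ : ∀ j ∈ J, pT p (T j) ≤ δ) (hδ1 : δ ≤ 1) (hD : ∑ e ∈ cf J T, pT p (T e.1 ∪ T e.2) ≤ D) :
    ∑ S ∈ J.powerset, ((∏ j ∈ S, (1 - z j)) * ∏ j ∈ J \ S, z j) * μ.real (none A S T) ≤
      Real.exp (D - (1 - δ) * m) := by
  have h2 : ∀ S ∈ J.powerset, ((∏ j ∈ S, (1 - z j)) * ∏ j ∈ J \ S, z j) * μ.real (none A S T) ≤
      Real.exp D * ((∏ j ∈ S, ((1 - z j) * Real.exp (-pT p (T j)))) * ∏ j ∈ J \ S, z j) := by
    intro S hS
    rw [mem_powerset] at hS
    rw [prod_mul_distrib, ← Real.exp_sum, sum_neg_distrib]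
    have h3 : μ.real (none A S T) ≤ Real.exp D * Real.exp (-∑ j ∈ S, pT p (T j)) := by
      refine (janson' hA S T).trans ?_
      rw [← Real.exp_add]
      refine Real.exp_le_exp.2 ?_
      have h4 : ∑ e ∈ cf S T, pT p (T e.1 ∪ T e.2) ≤ D :=
        (sum_le_sum_of_subset_of_nonneg (cf_mono hS T) (fun e _ _ => pT_nonneg hA _)).trans hD
      linarith
    have h5 : 0 ≤ (∏ j ∈ S, (1 - z j)) * ∏ j ∈ J \ S, z j := by
      refine mul_nonneg (prod_nonneg (fun j hj => ?_)) (prod_nonneg (fun j hj => ?_))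
      · linarith [h1 j (hS hj)]
      · exact h0 j (Finset.mem_sdiff.1 hj).1
    calc ((∏ j ∈ S, (1 - z j)) * ∏ j ∈ J \ S, z j) * μ.real (none A S T) ≤
        ((∏ j ∈ S, (1 - z j)) * ∏ j ∈ J \ S, z j) * (Real.exp D * Real.exp (-∑ j ∈ S, pT p (T j))) :=
          mul_le_mul_of_nonneg_left h3 h5
      _ = _ := by ring
  refine (sum_le_sum h2).trans ?_
  rw [← mul_sum, ← Finset.prod_add]
  have h6 : ∏ j ∈ J, ((1 - z j) * Real.exp (-pT p (T j)) + z j) ≤
      ∏ j ∈ J, Real.exp (-((1 - δ) * ((1 - z j) * pT p (T j)))) := by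
    refine prod_le_prod (fun j hj => ?_) (fun j hj => ?_)
    · have := mul_nonneg (show (0 : ℝ) ≤ 1 - z j by linarith [h1 j hj]) (Real.exp_pos (-pT p (T j))).le
      linarith [h0 j hj]
    · have hp0 := pT_nonneg hA (T j)
      have hp1 := hδ j hj
      have hz1 := h1 j hj
      have h7 : Real.exp (-pT p (T j)) ≤ 1 - (1 - δ) * pT p (T j) := by
        have h8 := Real.abs_exp_sub_one_sub_id_le (x := -pT p (T j)) (by
          rw [abs_neg, abs_of_nonneg hp0]
          linarith)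
        have h9 := (abs_le.1 h8).2
        nlinarith
      have h8 := Real.add_one_le_exp (-((1 - δ) * ((1 - z j) * pT p (T j))))
      nlinarith
  have h7 := mul_le_mul_of_nonneg_left h6 (Real.exp_pos D).le
  refine h7.trans ?_
  rw [← Real.exp_sum, ← Real.exp_add]
  refine Real.exp_le_exp.2 ?_
  rw [sum_neg_distrib, ← mul_sum]
  have h8 := mul_le_mul_of_nonneg_left hm (show (0 : ℝ) ≤ 1 - δ by linarith)
  linarith

omit [MeasurableSpace Ω] in
theorem down_eq (J : Finset κ) (T : κ → Finset ι) (z : κ → ℝ) (ω : Ω) :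
    ∏ j ∈ oc A J T ω, z j = ∑ S ∈ J.powerset, ((∏ j ∈ S, (1 - z j)) * ∏ j ∈ J \ S, z j) *
      (none A S T).indicator (fun _ => (1 : ℝ)) ω := by
  classical
  have h0 : ∏ j ∈ oc A J T ω, z j = ∏ j ∈ J, (1 - (1 - z j) * ind A (T j) ω) := by
    have h1 : oc A J T ω = J.filter (fun j => ω ∈ all A (T j)) := by
      ext j
      rw [mem_oc, mem_filter]
    rw [h1, prod_filter]
    refine prod_congr rfl (fun j _ => ?_)
    rcases ind_zero_or (A := A) (T j) ω with h | h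
    · rw [h.1, if_neg h.2]
      ring
    · rw [h.1, if_pos h.2]
      ring
  have h2 : ∀ j ∈ J, 1 - (1 - z j) * ind A (T j) ω = (1 - z j) * (1 - ind A (T j) ω) + z j := fun j _ => by ring
  rw [h0, prod_congr rfl h2, Finset.prod_add]
  refine sum_congr rfl (fun S _ => ?_)
  rw [prod_mul_distrib]
  have h3 : ∏ j ∈ S, (1 - ind A (T j) ω) = (none A S T).indicator (fun _ => (1 : ℝ)) ω := by
    by_cases h4 : ω ∈ none A S T
    · rw [Set.indicator_of_mem h4]
      refine prod_eq_one (fun j hj => ?_)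
      rcases ind_zero_or (A := A) (T j) ω with h | h
      · rw [h.1]
        ring
      · exact absurd h.2 (h4 j hj)
    · rw [Set.indicator_of_notMem h4]
      have h5 : ¬ ∀ j ∈ S, ω ∉ all A (T j) := h4
      push Not at h5
      obtain ⟨j, hj, h5⟩ := h5
      refine prod_eq_zero hj ?_
      rcases ind_zero_or (A := A) (T j) ω with h | h
      · exact absurd h5 h.2
      · rw [h.1]
        ring
  rw [h3]
  ring

/-- **Joint exponential bound.** -/
theorem mix (hA : IsModel μ p A) (JU JD : Finset κ) (T : κ → Finset ι) (z : κ → ℝ) {M m D δ G V : ℝ}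
    (hz : ∀ j ∈ JU, 1 ≤ z j) (hM : ∑ j ∈ JU, (z j - 1) * pT p (T j) ≤ M)
    (hu0 : ∀ j ∈ JD, 0 ≤ z j) (hu1 : ∀ j ∈ JD, z j ≤ 1) (hm : m ≤ ∑ j ∈ JD, (1 - z j) * pT p (T j))
    (hδ : ∀ j ∈ JD, pT p (T j) ≤ δ) (hδ1 : δ ≤ 1) (hD : ∑ e ∈ cf JD T, pT p (T e.1 ∪ T e.2) ≤ D)
    (hG : 0 < G) (hV : 0 < V) :
    μ.real {ω | (∃ S ⊆ oc A JU T ω, (∀ i ∈ S, ∀ j ∈ S, i ≠ j → Disjoint (T i) (T j)) ∧ G ≤ ∏ j ∈ S, z j) ∧
      V ≤ ∏ j ∈ oc A JD T ω, z j} ≤ Real.exp (M + D - (1 - δ) * m) / (G * V) := by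
  obtain ⟨E, hE⟩ : ∃ E, E = {ω | (∃ S ⊆ oc A JU T ω, (∀ i ∈ S, ∀ j ∈ S, i ≠ j → Disjoint (T i) (T j)) ∧
    G ≤ ∏ j ∈ S, z j) ∧ V ≤ ∏ j ∈ oc A JD T ω, z j} := ⟨_, rfl⟩
  obtain ⟨P, hP⟩ : ∃ P : Finset (Finset κ), P = JU.powerset.filter
    (fun S => ∀ i ∈ S, ∀ j ∈ S, i ≠ j → Disjoint (T i) (T j)) := ⟨_, rfl⟩
  obtain ⟨g, hg⟩ : ∃ g : Ω → ℝ, g = fun ω => ∑ S ∈ P, (∏ j ∈ S, (z j - 1)) * ind A (S.biUnion T) ω := ⟨_, rfl⟩
  obtain ⟨c, hc⟩ : ∃ c : Finset κ → ℝ, c = fun S => (∏ j ∈ S, (1 - z j)) * ∏ j ∈ JD \ S, z j := ⟨_, rfl⟩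
  obtain ⟨h, hh⟩ : ∃ h : Ω → ℝ, h = fun ω => ∑ S ∈ JD.powerset, c S * (none A S T).indicator (fun _ => (1 : ℝ)) ω :=
    ⟨_, rfl⟩
  have hc0 : ∀ S ∈ JD.powerset, 0 ≤ c S := by
    intro S hS
    rw [mem_powerset] at hS
    rw [hc]
    refine mul_nonneg (prod_nonneg (fun j hj => ?_)) (prod_nonneg (fun j hj => ?_))
    · linarith [hu1 j (hS hj)]
    · exact hu0 j (Finset.mem_sdiff.1 hj).1
  have hP0 : ∀ S ∈ P, 0 ≤ ∏ j ∈ S, (z j - 1) := by
    intro S hS
    rw [hP, mem_filter, mem_powerset] at hS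
    exact prod_nonneg (fun j hj => by linarith [hz j (hS.1 hj)])
  have hg0 : ∀ ω, 0 ≤ g ω := by
    intro ω
    rw [hg]
    exact sum_nonneg (fun S hS => mul_nonneg (hP0 S hS) (ind_nonneg _ _))
  have hh0 : ∀ ω, 0 ≤ h ω := by
    intro ω
    rw [hh]
    exact sum_nonneg (fun S hS => mul_nonneg (hc0 S hS) (Set.indicator_nonneg (fun _ _ => zero_le_one) _))
  have hEg : ∀ ω ∈ E, G * V ≤ g ω * h ω := by
    intro ω hω
    rw [hE] at hω
    obtain ⟨⟨S, hS1, hS2, hS3⟩, hV'⟩ := hω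
    have h1 : ∏ j ∈ S, z j ≤ g ω := by
      have h4 := Finset.prod_add (fun j : κ => z j - 1) (fun _ => (1 : ℝ)) S
      simp only [prod_const_one, mul_one, sub_add_cancel] at h4
      rw [h4, hg]
      have h2 : S.powerset ⊆ P := by
        intro S' hS'
        rw [mem_powerset] at hS'
        rw [hP, mem_filter, mem_powerset]
        exact ⟨fun j hj => (mem_oc.1 (hS1 (hS' hj))).1, fun i hi j hj => hS2 i (hS' hi) j (hS' hj)⟩
      refine le_trans (le_of_eq ?_) (sum_le_sum_of_subset_of_nonneg h2 (fun S hS _ =>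
        mul_nonneg (hP0 S hS) (ind_nonneg _ _)))
      refine sum_congr rfl (fun S' hS' => ?_)
      rw [mem_powerset] at hS'
      have h3 : ω ∈ all A (S'.biUnion T) := (all_biUnion S' T ω).2 (fun j hj => (mem_oc.1 (hS1 (hS' hj))).2)
      rcases ind_zero_or (A := A) (S'.biUnion T) ω with h | h
      · exact absurd h3 h.2
      · rw [h.1, mul_one]
    have h2 : V ≤ h ω := by
      rw [down_eq] at hV'
      rw [hh, hc]
      exact hV'
    exact mul_le_mul (hS3.trans h1) h2 hV.le (hg0 ω)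
  have hexp : ∀ ω, g ω * h ω = ∑ S ∈ P, ∑ S' ∈ JD.powerset, ((∏ j ∈ S, (z j - 1)) * c S') *
      (ind A (S.biUnion T) ω * (none A S' T).indicator (fun _ => (1 : ℝ)) ω) := by
    intro ω
    rw [hg, hh]
    show (∑ S ∈ P, (∏ j ∈ S, (z j - 1)) * ind A (S.biUnion T) ω) *
      (∑ S ∈ JD.powerset, c S * (none A S T).indicator (fun _ => (1 : ℝ)) ω) = _
    rw [sum_mul_sum]
    refine sum_congr rfl (fun S _ => sum_congr rfl (fun S' _ => ?_))
    ring
  have hi : ∀ S ∈ P, ∀ S' ∈ JD.powerset, Integrable (fun ω => ((∏ j ∈ S, (z j - 1)) * c S') *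
      (ind A (S.biUnion T) ω * (none A S' T).indicator (fun _ => (1 : ℝ)) ω)) μ :=
    fun S _ S' _ => (int_ind_none hA _ S' T).1.const_mul _
  have hint : Integrable (fun ω => g ω * h ω) μ := by
    simp_rw [hexp]
    exact integrable_finsetSum _ (fun S hS => integrable_finsetSum _ (fun S' hS' => hi S hS S' hS'))
  have hI : ∫ ω, g ω * h ω ∂μ ≤ Real.exp (M + D - (1 - δ) * m) := by
    simp_rw [hexp]
    rw [integral_finsetSum _ (fun S hS => integrable_finsetSum _ (fun S' hS' => hi S hS S' hS'))]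
    have h1 : ∀ S ∈ P, ∫ ω, ∑ S' ∈ JD.powerset, ((∏ j ∈ S, (z j - 1)) * c S') *
        (ind A (S.biUnion T) ω * (none A S' T).indicator (fun _ => (1 : ℝ)) ω) ∂μ ≤
        ∑ S' ∈ JD.powerset, ((∏ j ∈ S, (z j - 1)) * pT p (S.biUnion T)) * (c S' * μ.real (none A S' T)) := by
      intro S hS
      rw [integral_finsetSum _ (fun S' hS' => hi S hS S' hS')]
      refine sum_le_sum (fun S' hS' => ?_)
      rw [integral_const_mul]
      have h2 := mul_le_mul_of_nonneg_left (int_ind_none hA (S.biUnion T) S' T).2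
        (mul_nonneg (hP0 S hS) (hc0 S' hS'))
      refine h2.trans (le_of_eq ?_)
      ring
    refine (sum_le_sum h1).trans ?_
    rw [← sum_mul_sum]
    have h3 := up_sum hA JU T z hz hM
    have h4 := down_sum hA JD T z hu0 hu1 hm hδ hδ1 hD
    rw [← hP] at h3
    have h5 : ∑ S' ∈ JD.powerset, c S' * μ.real (none A S' T) ≤ Real.exp (D - (1 - δ) * m) := by
      rw [hc]
      exact h4
    refine (mul_le_mul h3 h5 ?_ (Real.exp_pos _).le).trans (le_of_eq ?_)
    · exact sum_nonneg (fun S hS => mul_nonneg (hc0 S hS) measureReal_nonneg)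
    · rw [← Real.exp_add]
      congr 1
      ring
  have h5 := mul_meas_ge_le_integral_of_nonneg (μ := μ) (f := fun ω => g ω * h ω)
    (Eventually.of_forall (fun ω => mul_nonneg (hg0 ω) (hh0 ω))) hint (G * V)
  have h6 : μ.real E ≤ μ.real {ω | G * V ≤ g ω * h ω} := measureReal_mono hEg (measure_ne_top _ _)
  rw [← hE, le_div_iff₀ (by positivity), mul_comm]
  exact (mul_le_mul_of_nonneg_left h6 (by positivity)).trans (h5.trans hI)

end Pool.Agent.Q106.ER
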