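import Pool.Agent.Q106.ER.Mean

/-!
# Large deviations of the numbers of constellations in the windows
-/

set_option autoImplicit false

namespace Pool.Agent.Q106.ER

open Finset MeasureTheory ProbabilityTheory Filter Pool.Agent.Q120.GM Pool.Agent.Q106.UR
open Pool.Agent.Q106.ZO (nei mem_nei)

variable {Ω : Type*} [MeasurableSpace Ω] {μ : Measure Ω} [IsProbabilityMeasure μ] {A : Ω → Set ℕ}
  {I : Type*} [Fintype I] [DecidableEq I]

theorem ev_log (C : ℝ) : ∀ᶠ x : ℕ in atTop, C ≤ Real.log x := log_tendsto.eventually_ge_atTop C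

/-- The number of the occurrences of the kind `i` in its window. -/
noncomputable def Nu (A : Ω → Set ℕ) (k : ℕ) (H : I → Finset ℕ) (α β : I → ℝ) (x : ℕ) (i : I) (ω : Ω) : ℕ :=
  cn A (JJ k α β x) (TT H) Prod.fst i ω

/-- **Upper bounds for the joint tails.** -/
theorem ld_up {Q k : ℕ} (hA : IsModel μ (level Q) A) (hQ : 1 ≤ Q) {H : I → Finset ℕ} {α β : I → ℝ}
    (hK : Kd Q k H α β) (w c : I → ℝ) (hw : ∀ i, 0 < w i) {ε ρ : ℝ} (hε : 0 ≤ ε) (hρ : 0 < ρ) :
    ∀ᶠ x : ℕ in atTop, μ.real {ω | ∀ i, (1 < w i → (c i - ε) * Real.log x ≤ Nu A k H α β x i ω) ∧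
      (w i < 1 → (Nu A k H α β x i ω : ℝ) ≤ (c i + ε) * Real.log x)} ≤
      Real.exp ((∑ i, ((w i - 1) * MM Q H α β i - c i * Real.log (w i)) + ε * ∑ i, |Real.log (w i)| + ρ) *
        Real.log x) := by
  obtain ⟨Λ, hΛ⟩ : ∃ Λ, Λ = ∑ i, |Real.log (w i)| := ⟨_, rfl⟩
  have hΛ0 : 0 ≤ Λ := by rw [hΛ]; exact sum_nonneg (fun _ _ => abs_nonneg _)
  obtain ⟨X, hX⟩ : ∃ X, X = ∑ i, ((w i - 1) * MM Q H α β i - c i * Real.log (w i)) + ε * Λ := ⟨_, rfl⟩
  obtain ⟨C, hC, hmean⟩ := means (k := k) hQ hK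
  obtain ⟨D, hD, hconf⟩ := confl (Q := Q) hK
  obtain ⟨K, hKd⟩ : ∃ K : ℕ, K = Fintype.card I * k ^ 2 + k := ⟨_, rfl⟩
  obtain ⟨η, hη⟩ : ∃ η : ℝ, η = ρ / (8 * ((K : ℝ) ^ 2 + 1) * (Λ + 1)) := ⟨_, rfl⟩
  have hη0 : 0 < η := by rw [hη]; positivity
  have hηK : 2 * (K : ℝ) ^ 2 * η * Λ ≤ ρ / 4 := by
    have e1 : (8 * ((K : ℝ) ^ 2 + 1) * (Λ + 1)) * η = ρ := by
      rw [hη]
      field_simp
    have e2 : (K : ℝ) ^ 2 * Λ ≤ ((K : ℝ) ^ 2 + 1) * (Λ + 1) := by nlinarith [sq_nonneg (K : ℝ)]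
    nlinarith
  obtain ⟨Y, hY⟩ : ∃ Y : ℝ, Y = (|X| + 1) / η := ⟨_, rfl⟩
  have hY0 : 0 ≤ Y := by rw [hY]; positivity
  obtain ⟨B, hB⟩ : ∃ B : ℝ, B = ∑ i, |w i - 1| * C + D + qq Q * ∑ i, (MM Q H α β i + C) := ⟨_, rfl⟩
  have hq : 0 ≤ qq Q := by unfold qq; positivity
  filter_upwards [hmean, hconf, ev_log 1, ev_log (qq Q), ev_log (4 * B / ρ), ev_log (Real.exp Y * D),
    ev_log (2 * Real.log 2 / ρ), eventually_ge_atTop 1] with x h1 h2 h3 h4 h5 h6 h7 h8
  have hx0 : (0 : ℝ) < x := by exact_mod_cast h8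
  obtain ⟨t, ht⟩ : ∃ t, t = Real.log x := ⟨_, rfl⟩
  rw [← ht] at h1 h3 h4 h5 h6 h7 ⊢
  have ht0 : 0 < t := by linarith
  have hδ1 : qq Q / t ≤ 1 := by rw [div_le_one ht0]; exact h4
  have hmem : ∀ e ∈ JJ k α β x, pT (level Q) (TT H e) ≤ qq Q / t := by
    intro e he
    have e1 : e.2 ∈ TT H e := mem_tl.2 ⟨0, hK.zero e.1, rfl⟩
    refine (pT_le hA e1).trans ?_
    rw [ht]
    exact level_le (by rw [← ht]; exact ht0) hx0 (TT_ge hK.a0 (fun i => (hK.a0 i).trans (hK.ab i).le) he e1)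
  have key := tails hA (JJ k α β x) (TT H) Prod.fst w (fun i => c i * t) (D := D) (δ := qq Q / t) (y := Real.exp Y)
    (e := ε * t) (K := K) hw (fun j _ => by rw [TT_card hK, hKd]; omega)
    (fun b => (cont_TT hK _ b).trans (by rw [hKd]; omega)) hmem (by positivity) hδ1 h2 (Real.one_le_exp hY0)
    (by positivity) ⌊η * t⌋₊
  have hset : {ω | ∀ i, (1 < w i → (c i - ε) * t ≤ Nu A k H α β x i ω) ∧
      (w i < 1 → (Nu A k H α β x i ω : ℝ) ≤ (c i + ε) * t)} =
      {ω | ∀ i, (1 < w i → c i * t - ε * t ≤ cn A (JJ k α β x) (TT H) Prod.fst i ω) ∧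
      (w i < 1 → (cn A (JJ k α β x) (TT H) Prod.fst i ω : ℝ) ≤ c i * t + ε * t)} := by
    ext ω
    simp only [Set.mem_ofPred_eq, sub_mul, add_mul]
    exact Iff.rfl
  rw [hset]
  refine key.trans ?_
  rw [← hΛ, ← hX]
  have hr : (⌊η * t⌋₊ : ℝ) ≤ η * t := Nat.floor_le (by positivity)
  have hr' : η * t < ⌊η * t⌋₊ + 1 := Nat.lt_floor_add_one _
  -- the first term
  have hm1 : ∑ i, ((w i - 1) * me (level Q) (JJ k α β x) (TT H) Prod.fst i - c i * t * Real.log (w i)) ≤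
      (∑ i, ((w i - 1) * MM Q H α β i - c i * Real.log (w i))) * t + ∑ i, |w i - 1| * C := by
    rw [sum_mul, ← sum_add_distrib]
    refine sum_le_sum (fun i _ => ?_)
    have e1 := abs_le.1 (h1 i)
    have e2 : (w i - 1) * (me (level Q) (JJ k α β x) (TT H) Prod.fst i - MM Q H α β i * t) ≤ |w i - 1| * C := by
      refine (le_abs_self _).trans ?_
      rw [abs_mul]
      exact mul_le_mul_of_nonneg_left (h1 i) (abs_nonneg _)
    nlinarith
  have hm2 : qq Q / t * ∑ i, me (level Q) (JJ k α β x) (TT H) Prod.fst i ≤ qq Q * ∑ i, (MM Q H α β i + C) := by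
    have e1 : ∑ i, me (level Q) (JJ k α β x) (TT H) Prod.fst i ≤ (∑ i, (MM Q H α β i + C)) * t := by
      rw [sum_mul]
      refine sum_le_sum (fun i _ => ?_)
      have e1 := abs_le.1 (h1 i)
      nlinarith [e1.2]
    calc qq Q / t * ∑ i, me (level Q) (JJ k α β x) (TT H) Prod.fst i ≤ qq Q / t * ((∑ i, (MM Q H α β i + C)) * t) :=
          mul_le_mul_of_nonneg_left e1 (by positivity)
      _ = qq Q * ∑ i, (MM Q H α β i + C) := by field_simp
  have hm3 : (ε * t + 2 * (K : ℝ) ^ 2 * ⌊η * t⌋₊) * Λ ≤ (ε * Λ + ρ / 4) * t := by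
    have e1 : 2 * (K : ℝ) ^ 2 * ⌊η * t⌋₊ * Λ ≤ 2 * (K : ℝ) ^ 2 * (η * t) * Λ :=
      mul_le_mul_of_nonneg_right (mul_le_mul_of_nonneg_left hr (by positivity)) hΛ0
    have e2 := mul_le_mul_of_nonneg_right hηK ht0.le
    nlinarith
  have hBt : B ≤ ρ / 4 * t := by
    rw [div_le_iff₀ hρ] at h5
    linarith
  have hfirst : Real.exp (∑ i, ((w i - 1) * me (level Q) (JJ k α β x) (TT H) Prod.fst i - c i * t * Real.log (w i)) +
      D + qq Q / t * ∑ i, me (level Q) (JJ k α β x) (TT H) Prod.fst i +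
      (ε * t + 2 * (K : ℝ) ^ 2 * ⌊η * t⌋₊) * Λ) ≤ Real.exp ((X + ρ / 2) * t) := by
    refine Real.exp_le_exp.2 ?_
    rw [hX]
    linarith
  -- the second term
  have hsecond : Real.exp ((Real.exp Y - 1) * D) / Real.exp Y ^ (⌊η * t⌋₊ + 1) ≤ Real.exp ((X + ρ / 2) * t) := by
    rw [← Real.exp_nat_mul, ← Real.exp_sub]
    refine Real.exp_le_exp.2 ?_
    push_cast
    have e1 : (|X| + 1) * t ≤ (⌊η * t⌋₊ + 1) * Y := by
      have e2 : (|X| + 1) * t = η * t * Y := by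
        rw [hY]
        field_simp
      rw [e2]
      exact mul_le_mul_of_nonneg_right hr'.le hY0
    have e2 := neg_abs_le X
    have e3 : 0 ≤ ρ / 2 * t := by positivity
    nlinarith
  have hsum : 2 * Real.exp ((X + ρ / 2) * t) ≤ Real.exp ((X + ρ) * t) := by
    have e1 : (X + ρ) * t = ρ / 2 * t + (X + ρ / 2) * t := by ring
    rw [e1, Real.exp_add]
    refine mul_le_mul_of_nonneg_right ?_ (Real.exp_pos _).le
    have e2 : Real.log 2 ≤ ρ / 2 * t := by
      rw [div_le_iff₀ hρ] at h7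
      linarith
    calc (2 : ℝ) = Real.exp (Real.log 2) := (Real.exp_log (by norm_num)).symm
      _ ≤ _ := Real.exp_le_exp.2 e2
  linarith

theorem fact_le (n : ℕ) (hn : 1 ≤ n) : Real.log (n.factorial : ℝ) ≤ n * Real.log n - n + Real.log n + 1 := by
  induction n, hn using Nat.le_induction with
  | base => simp
  | succ n hn ih =>
    have hn0 : (0 : ℝ) < n := by exact_mod_cast hn
    rw [Nat.factorial_succ]
    push_cast
    rw [Real.log_mul (by positivity) (by positivity)]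
    have h1 := Real.one_sub_inv_le_log_of_pos (show (0 : ℝ) < ((n : ℝ) + 1) / n by positivity)
    rw [Real.log_div (by positivity) (by positivity)] at h1
    have h2 : (((n : ℝ) + 1) / n)⁻¹ = 1 - 1 / ((n : ℝ) + 1) := by
      field_simp
      ring
    rw [h2] at h1
    have h3 : 1 ≤ ((n : ℝ) + 1) * (Real.log ((n : ℝ) + 1) - Real.log n) := by
      have h4 := mul_le_mul_of_nonneg_left h1 (show (0 : ℝ) ≤ (n : ℝ) + 1 by positivity)
      have h5 : ((n : ℝ) + 1) * (1 - (1 - 1 / ((n : ℝ) + 1))) = 1 := by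
        field_simp
        ring
      linarith
    linarith

theorem ev_log_log {C ρ : ℝ} (hρ : 0 < ρ) : ∀ᶠ x : ℕ in atTop, C + Real.log (Real.log x) ≤ ρ * Real.log x := by
  have h1 := (Real.isLittleO_log_id_atTop.comp_tendsto log_tendsto).def (show (0 : ℝ) < ρ / 2 by positivity)
  filter_upwards [h1, ev_log 1, ev_log (2 * C / ρ)] with x h2 h3 h4
  simp only [Function.comp, id] at h2
  have h5 : 0 ≤ Real.log (Real.log x) := Real.log_nonneg h3
  rw [Real.norm_of_nonneg h5, Real.norm_of_nonneg (by linarith)] at h2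
  rw [div_le_iff₀ hρ] at h4
  linarith

theorem one_low {M a C ρ : ℝ} (hM : 0 < M) (ha : 0 < a) (hC : 0 ≤ C) (hρ : 0 < ρ) : ∀ᶠ x : ℕ in atTop,
    0 ≤ M * Real.log x - C ∧ Real.exp ((a * (Real.log (M / a) + 1) - ρ) * Real.log x) ≤
      (M * Real.log x - C) ^ ⌊a * Real.log x⌋₊ / ((⌊a * Real.log x⌋₊).factorial : ℝ) := by
  obtain ⟨R, hR⟩ : ∃ R : ℝ, R = |Real.log (M / a) + 1| + 2 * a * C / M + |Real.log a| + 1 := ⟨_, rfl⟩
  filter_upwards [ev_log 1, ev_log (2 * C / M), ev_log (1 / a), ev_log_log (C := R) hρ] with x h1 h2 h3 h4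
  obtain ⟨t, ht⟩ : ∃ t, t = Real.log x := ⟨_, rfl⟩
  rw [← ht] at h1 h2 h3 h4 ⊢
  have ht0 : 0 < t := by linarith
  obtain ⟨n, hn⟩ : ∃ n, n = ⌊a * t⌋₊ := ⟨_, rfl⟩
  rw [← hn]
  have hn1 : 1 ≤ n := by
    rw [hn]
    refine Nat.le_floor ?_
    rw [div_le_iff₀ ha] at h3
    push_cast
    linarith
  have hn0 : (1 : ℝ) ≤ n := by exact_mod_cast hn1
  have hna : (n : ℝ) ≤ a * t := by rw [hn]; exact Nat.floor_le (by positivity)
  have hna' : a * t < n + 1 := by rw [hn]; exact Nat.lt_floor_add_one _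
  have hCM : C ≤ M * t / 2 := by
    rw [div_le_iff₀ hM] at h2
    linarith
  have hm0 : 0 < M * t - C := by
    have : 0 < M * t := by positivity
    linarith
  refine ⟨hm0.le, ?_⟩
  have hf : (0 : ℝ) < (n.factorial : ℝ) := by exact_mod_cast Nat.factorial_pos _
  rw [← Real.exp_log (show 0 < (M * t - C) ^ n / (n.factorial : ℝ) by positivity)]
  refine Real.exp_le_exp.2 ?_
  have e0 : Real.log ((M * t - C) ^ n / (n.factorial : ℝ)) = n * Real.log (M * t - C) - Real.log (n.factorial : ℝ) := by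
    rw [Real.log_div (by positivity) (by positivity), Real.log_pow]
  rw [e0]
  have e1 := fact_le n hn1
  -- `log (M t - C) ≥ log (M t) - 2 C / (M t)`
  have e2 : Real.log (M * t) - 2 * C / (M * t) ≤ Real.log (M * t - C) := by
    have f1 := Real.one_sub_inv_le_log_of_pos (show 0 < (M * t - C) / (M * t) by positivity)
    rw [Real.log_div hm0.ne' (by positivity)] at f1
    have f2 : ((M * t - C) / (M * t))⁻¹ ≤ 1 + 2 * C / (M * t) := by
      rw [inv_div, div_le_iff₀ hm0]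
      have f3 : (1 + 2 * C / (M * t)) * (M * t - C) = M * t + C - 2 * C * (C / (M * t)) := by
        field_simp
        ring
      rw [f3]
      have f4 : C / (M * t) ≤ 1 / 2 := by
        rw [div_le_iff₀ (by positivity)]
        linarith
      nlinarith
    linarith
  have e3 : Real.log n ≤ Real.log a + Real.log t := by
    rw [← Real.log_mul ha.ne' ht0.ne']
    exact Real.log_le_log (by linarith) hna
  have e4 : Real.log (M * t) = Real.log (M / a) + (Real.log a + Real.log t) := by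
    rw [← Real.log_mul ha.ne' ht0.ne', ← Real.log_mul (by positivity) (by positivity)]
    congr 1
    field_simp
  have e5 : (n : ℝ) * (2 * C / (M * t)) ≤ 2 * a * C / M := by
    calc (n : ℝ) * (2 * C / (M * t)) ≤ (a * t) * (2 * C / (M * t)) := mul_le_mul_of_nonneg_right hna (by positivity)
      _ = 2 * a * C / M := by field_simp
  have e6 : (a * t) * (Real.log (M / a) + 1) - |Real.log (M / a) + 1| ≤ n * (Real.log (M / a) + 1) := by
    have f1 : (a * t - n) * (Real.log (M / a) + 1) ≤ 1 * |Real.log (M / a) + 1| := by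
      refine (mul_le_mul_of_nonneg_left (le_abs_self _) (by linarith)).trans ?_
      exact mul_le_mul_of_nonneg_right (by linarith) (abs_nonneg _)
    linarith
  have e7 := mul_le_mul_of_nonneg_left e2 (show (0 : ℝ) ≤ n by linarith)
  have e8 := mul_le_mul_of_nonneg_left e3 (show (0 : ℝ) ≤ n by linarith)
  have e9 := le_abs_self (Real.log a)
  rw [e4] at e7
  rw [hR] at h4
  have e10 : (n : ℝ) * (Real.log (M / a) + (Real.log a + Real.log t) - 2 * C / (M * t)) =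
    n * (Real.log (M / a) + 1) - n + n * (Real.log a + Real.log t) - n * (2 * C / (M * t)) := by ring
  rw [e10] at e7
  have e11 : (a * (Real.log (M / a) + 1) - ρ) * t = (a * t) * (Real.log (M / a) + 1) - ρ * t := by ring
  rw [e11]
  linarith

/-- The rate. -/
noncomputable def rt (M a : ℝ) : ℝ := a * Real.log (a / M) - a + M

/-- **Lower bounds.** -/
theorem ld_low [Nonempty I] {Q k : ℕ} (hA : IsModel μ (level Q) A) (hQ : 1 ≤ Q) {H : I → Finset ℕ} {α β : I → ℝ}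
    (hK : Kd Q k H α β) (a : I → ℝ) (ha : ∀ i, 0 < a i) {ρ : ℝ} (hρ : 0 < ρ) :
    ∀ᶠ x : ℕ in atTop, Real.exp (-((∑ i, rt (MM Q H α β i) (a i)) + ρ) * Real.log x) ≤
      μ.real {ω | ∀ i, Nu A k H α β x i ω = ⌊a i * Real.log x⌋₊} := by
  obtain ⟨C, hC, hmean⟩ := means (k := k) hQ hK
  obtain ⟨K, hKd⟩ : ∃ K : ℕ, K = Fintype.card I * k ^ 2 + k := ⟨_, rfl⟩
  have hq : 0 ≤ qq Q := by unfold qq; positivity
  obtain ⟨S, hS⟩ : ∃ S, S = ∑ i, a i := ⟨_, rfl⟩
  have hS0 : 0 ≤ S := by rw [hS]; exact sum_nonneg (fun i _ => (ha i).le)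
  obtain ⟨C', hC'⟩ : ∃ C' : ℝ, C' = C + qq Q * ((K : ℝ) ^ 2 * S) := ⟨_, rfl⟩
  have hC'0 : 0 ≤ C' := by rw [hC']; positivity
  obtain ⟨ρ', hρ'⟩ : ∃ ρ' : ℝ, ρ' = ρ / (2 * (Fintype.card I + 1)) := ⟨_, rfl⟩
  have hρ'0 : 0 < ρ' := by rw [hρ']; positivity
  obtain ⟨B, hB⟩ : ∃ B : ℝ, B = ∑ _i : I, C + 2 * qq Q * ∑ i, (MM Q H α β i + C) + 2 * qq Q * K * S := ⟨_, rfl⟩
  have hone := eventually_all.2 (fun i : I => one_low (M := MM Q H α β i) (a := a i) (C := C') (ρ := ρ')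
    (MM_pos hK i) (ha i) hC'0 hρ'0)
  filter_upwards [hmean, ev_log 1, ev_log (2 * qq Q), ev_log (2 * B / ρ), hone, eventually_ge_atTop 1] with
    x h1 h3 h4 h5 h6 h8
  have hx0 : (0 : ℝ) < x := by exact_mod_cast h8
  obtain ⟨t, ht⟩ : ∃ t, t = Real.log x := ⟨_, rfl⟩
  rw [← ht] at h1 h3 h4 h5 h6 ⊢
  have ht0 : 0 < t := by linarith
  have hUf : Uf (level Q) (JJ k α β x) (TT H) k K (qq Q / t) := by
    obtain ⟨i₀⟩ := ‹Nonempty I›
    refine ⟨fun e _ => TT_card hK e, k_pos hK i₀, fun e he f hf h => TT_inj hK he hf h, fun e _ => ?_, fun e he b hb => ?_,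
      ?_, by positivity, Nat.cast_nonneg _⟩
    · have := nei_TT hK (JJ k α β x) e
      exact_mod_cast this.trans (by rw [hKd]; omega)
    · rw [ht]
      exact level_le (by rw [← ht]; exact ht0) hx0 (TT_ge hK.a0 (fun i => (hK.a0 i).trans (hK.ab i).le) he hb)
    · rw [div_le_iff₀ ht0]
      linarith
  obtain ⟨n, hn⟩ : ∃ n : I → ℕ, n = fun i => ⌊a i * t⌋₊ := ⟨_, rfl⟩
  obtain ⟨N, hN⟩ : ∃ N, N = ∑ i, n i := ⟨_, rfl⟩
  have hNS : (N : ℝ) ≤ S * t := by
    rw [hN, hS, sum_mul]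
    push_cast
    refine sum_le_sum (fun i _ => ?_)
    rw [hn]
    exact Nat.floor_le (mul_nonneg (ha i).le ht0.le)
  have key := le_exact hA hUf Prod.fst (fun i => MM Q H α β i * t - C') (fun i => (h6 i).1) N (fun i => ?_) n hN.ge
  · have hset : {ω | ∀ i, cn A (JJ k α β x) (TT H) Prod.fst i ω = n i} =
        {ω | ∀ i, Nu A k H α β x i ω = ⌊a i * t⌋₊} := by
      rw [hn]
      rfl
    rw [hset] at key
    refine le_trans ?_ key
    rw [← prod_div_distrib]
    have g1 : ∏ i, Real.exp ((a i * (Real.log (MM Q H α β i / a i) + 1) - ρ') * t) ≤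
        ∏ i, ((MM Q H α β i * t - C') ^ n i / ((n i).factorial : ℝ)) := by
      refine prod_le_prod (fun i _ => (Real.exp_pos _).le) (fun i _ => ?_)
      rw [hn]
      exact (h6 i).2
    refine le_trans ?_ (mul_le_mul_of_nonneg_right g1 (Real.exp_pos _).le)
    rw [← Real.exp_sum, ← Real.exp_add]
    refine Real.exp_le_exp.2 ?_
    have g2 : ∑ i, (a i * (Real.log (MM Q H α β i / a i) + 1) - ρ') * t =
        -(∑ i, rt (MM Q H α β i) (a i)) * t + (∑ i, MM Q H α β i) * t - Fintype.card I * ρ' * t := by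
      rw [← sum_neg_distrib, sum_mul, sum_mul, ← sum_add_distrib]
      have : (Fintype.card I : ℝ) * ρ' * t = ∑ _i : I, ρ' * t := by
        rw [sum_const, card_univ, nsmul_eq_mul]
        ring
      rw [this, ← sum_sub_distrib]
      refine sum_congr rfl (fun i _ => ?_)
      unfold rt
      have hMi := MM_pos hK i
      rw [Real.log_div hMi.ne' (ha i).ne', Real.log_div (ha i).ne' hMi.ne']
      ring
    rw [g2]
    have g3 : Fintype.card I * ρ' ≤ ρ / 2 := by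
      rw [hρ']
      rw [mul_div_assoc', div_le_iff₀ (by positivity)]
      have : (0 : ℝ) ≤ Fintype.card I := Nat.cast_nonneg _
      nlinarith
    have g4 : ∑ i, me (level Q) (JJ k α β x) (TT H) Prod.fst i ≤ (∑ i, MM Q H α β i) * t + ∑ _i : I, C := by
      rw [sum_mul, ← sum_add_distrib]
      refine sum_le_sum (fun i _ => ?_)
      have := (abs_le.1 (h1 i)).2
      linarith
    have g5 : 2 * (qq Q / t) * ∑ i, me (level Q) (JJ k α β x) (TT H) Prod.fst i ≤ 2 * qq Q * ∑ i, (MM Q H α β i + C) := by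
      have e1 : ∑ i, me (level Q) (JJ k α β x) (TT H) Prod.fst i ≤ (∑ i, (MM Q H α β i + C)) * t := by
        rw [sum_mul]
        refine sum_le_sum (fun i _ => ?_)
        have e1 := abs_le.1 (h1 i)
        nlinarith [e1.2]
      calc 2 * (qq Q / t) * ∑ i, me (level Q) (JJ k α β x) (TT H) Prod.fst i ≤
          2 * (qq Q / t) * ((∑ i, (MM Q H α β i + C)) * t) := mul_le_mul_of_nonneg_left e1 (by positivity)
        _ = 2 * qq Q * ∑ i, (MM Q H α β i + C) := by field_simp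
    have g6 : 2 * (qq Q / t) * K * N ≤ 2 * qq Q * K * S := by
      calc 2 * (qq Q / t) * K * N ≤ 2 * (qq Q / t) * K * (S * t) := mul_le_mul_of_nonneg_left hNS (by positivity)
        _ = 2 * qq Q * K * S := by field_simp
    have g7 : B ≤ ρ / 2 * t := by
      rw [div_le_iff₀ hρ] at h5
      linarith
    have g8 := mul_le_mul_of_nonneg_right g3 ht0.le
    rw [hB] at g7
    linarith
  · show MM Q H α β i * t - C' ≤ _
    have e1 := (abs_le.1 (h1 i)).1
    have e2 : qq Q / t * ((K : ℝ) ^ 2 * N) ≤ qq Q * ((K : ℝ) ^ 2 * S) := by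
      calc qq Q / t * ((K : ℝ) ^ 2 * N) ≤ qq Q / t * ((K : ℝ) ^ 2 * (S * t)) :=
            mul_le_mul_of_nonneg_left (mul_le_mul_of_nonneg_left hNS (by positivity)) (by positivity)
        _ = qq Q * ((K : ℝ) ^ 2 * S) := by field_simp
    rw [hC']
    linarith

end Pool.Agent.Q106.ER
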