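import Pool.Agent.Q106.ER.Law

/-!
# The number of the windows with given numbers
-/

set_option autoImplicit false

namespace Pool.Agent.Q106.ER

open Finset MeasureTheory ProbabilityTheory Filter Pool.Agent.Q120.GM Pool.Agent.Q106.UR
open scoped Topology

variable {Ω : Type*} [MeasurableSpace Ω] {μ : Measure Ω} [IsProbabilityMeasure μ] {A : Ω → Set ℕ}
  {I : Type*} [Fintype I] [DecidableEq I]

/-- Spaced points in `(2^(j-1), 2^j]`. -/
def Pk (m j : ℕ) : Finset ℕ := (Ioc (2 ^ (j - 1 - j / m)) (2 ^ (j - j / m))).image (fun i => i * 2 ^ (j / m))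

theorem mem_Pk {m j x : ℕ} (hm : 2 ≤ m) (hj : 2 ≤ j) (hx : x ∈ Pk m j) : 2 ^ (j - 1) < x ∧ x ≤ 2 ^ j := by
  unfold Pk at hx
  obtain ⟨i, hi, rfl⟩ := mem_image.1 hx
  rw [mem_Ioc] at hi
  have h1 : j / m ≤ j / 2 := Nat.div_le_div_left hm (by norm_num)
  have h2 : j / m ≤ j - 1 := by omega
  have e1 : 2 ^ (j - 1) = 2 ^ (j - 1 - j / m) * 2 ^ (j / m) := by
    rw [← pow_add]
    congr 1
    omega
  have e2 : 2 ^ j = 2 ^ (j - j / m) * 2 ^ (j / m) := by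
    rw [← pow_add]
    congr 1
    omega
  rw [e1, e2]
  exact ⟨Nat.mul_lt_mul_of_pos_right hi.1 (by positivity), Nat.mul_le_mul_right _ hi.2⟩

theorem card_Pk {m j : ℕ} (hm : 2 ≤ m) (hj : 2 ≤ j) : (Pk m j).card = 2 ^ (j - 1 - j / m) := by
  unfold Pk
  rw [card_image_of_injective _ (fun a b h => Nat.eq_of_mul_eq_mul_right (by positivity) h), Nat.card_Ioc]
  have h1 : j / m ≤ j / 2 := Nat.div_le_div_left hm (by norm_num)
  have e1 : j - j / m = (j - 1 - j / m) + 1 := by omega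
  rw [e1, pow_succ]
  omega

theorem Pk_far {m j x y : ℕ} (hx : x ∈ Pk m j) (hy : y ∈ Pk m j) (hxy : x < y) : x + 2 ^ (j / m) ≤ y := by
  unfold Pk at hx hy
  obtain ⟨a, _, rfl⟩ := mem_image.1 hx
  obtain ⟨b, _, rfl⟩ := mem_image.1 hy
  have h1 : a < b := lt_of_mul_lt_mul_right hxy (Nat.zero_le _)
  calc a * 2 ^ (j / m) + 2 ^ (j / m) = (a + 1) * 2 ^ (j / m) := by ring
    _ ≤ b * 2 ^ (j / m) := Nat.mul_le_mul_right _ h1

theorem Pk_card_real {m : ℕ} (hm : 2 ≤ m) {j : ℕ} (hj : 2 ≤ j) :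
    ((2 : ℝ) ^ j) ^ (1 - 1 / (m : ℝ)) / 2 ≤ (Pk m j).card := by
  rw [card_Pk hm hj]
  have h1 : j / m ≤ j / 2 := Nat.div_le_div_left hm (by norm_num)
  have hm0 : (0 : ℝ) < m := by exact_mod_cast (by omega : 0 < m)
  push_cast
  rw [div_le_iff₀ (by norm_num), ← pow_succ, ← Real.rpow_natCast, ← Real.rpow_natCast, ← Real.rpow_mul (by norm_num)]
  refine Real.rpow_le_rpow_of_exponent_le (by norm_num) ?_
  have e1 : j - 1 - j / m + 1 = j - j / m := by omega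
  rw [e1, Nat.cast_sub (Nat.div_le_self j m)]
  have e2 : ((j / m : ℕ) : ℝ) ≤ (j : ℝ) / m := Nat.cast_div_le
  have e3 : (j : ℝ) * (1 - 1 / (m : ℝ)) = j - j / m := by field_simp
  rw [e3]
  linarith

/-- The windows at spaced points are disjoint. -/
theorem Wn_disj (k : ℕ) (H : I → Finset ℕ) (β : I → ℝ) (hβ : ∀ i, 0 ≤ β i) {m : ℕ} (hm : 2 ≤ m) :
    ∀ᶠ j : ℕ in atTop, ∀ x ∈ Pk m j, ∀ y ∈ Pk m j, x ≠ y → Disjoint (Wn k H β x) (Wn k H β y) := by
  obtain ⟨Λ, hΛ⟩ : ∃ Λ, Λ = ∑ i, β i := ⟨_, rfl⟩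
  have hΛ0 : 0 ≤ Λ := by rw [hΛ]; exact sum_nonneg (fun i _ => hβ i)
  obtain ⟨h, hh⟩ : ∃ h : ℕ, h = ∑ i, (H i).sup id := ⟨_, rfl⟩
  -- polynomial against exponential
  have hgrow : ∀ᶠ j : ℕ in atTop, Λ * (j : ℝ) ^ (k + 1) + h < 2 ^ (j / m) := by
    have h1 : Tendsto (fun n : ℕ => (n : ℝ) ^ (k + 1) / (2 : ℝ) ^ n) atTop (𝓝 0) :=
      tendsto_pow_const_div_const_pow_of_one_lt (k + 1) (by norm_num)
    obtain ⟨c, hc⟩ : ∃ c : ℝ, c = Λ * (2 * m) ^ (k + 1) + h + 1 := ⟨_, rfl⟩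
    have hc0 : 0 < c := by rw [hc]; positivity
    have h2 : ∀ᶠ n : ℕ in atTop, (n : ℝ) ^ (k + 1) / (2 : ℝ) ^ n < 1 / c :=
      h1.eventually (gt_mem_nhds (by positivity))
    have h3 : Tendsto (fun j : ℕ => j / m) atTop atTop := Nat.tendsto_div_const_atTop (by omega)
    filter_upwards [h3.eventually h2, h3.eventually (eventually_ge_atTop 1)] with j g1 g2
    obtain ⟨n, hn⟩ : ∃ n, n = j / m := ⟨_, rfl⟩
    rw [← hn] at g1 g2 ⊢
    have hn1 : (1 : ℝ) ≤ n := by exact_mod_cast g2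
    have hjn : (j : ℝ) ≤ 2 * m * n := by
      have e1 : j < (n + 1) * m := by
        rw [hn]
        have := Nat.lt_div_mul_add (a := j) (b := m) (by omega)
        linarith [this, show (j / m + 1) * m = j / m * m + m by ring]
      have e2 : (j : ℝ) ≤ (n + 1) * m := by exact_mod_cast e1.le
      have e3 : (0 : ℝ) ≤ m := Nat.cast_nonneg m
      nlinarith
    have hn1k : (1 : ℝ) ≤ (n : ℝ) ^ (k + 1) := one_le_pow₀ hn1
    have e1 : Λ * (j : ℝ) ^ (k + 1) + h < c * (n : ℝ) ^ (k + 1) := by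
      have f1 : (j : ℝ) ^ (k + 1) ≤ (2 * m) ^ (k + 1) * (n : ℝ) ^ (k + 1) := by
        rw [← mul_pow]
        exact pow_le_pow_left₀ (Nat.cast_nonneg j) hjn _
      have f2 := mul_le_mul_of_nonneg_left f1 hΛ0
      have f3 : (h : ℝ) ≤ h * (n : ℝ) ^ (k + 1) := by
        have : (0 : ℝ) ≤ h := Nat.cast_nonneg h
        nlinarith
      rw [hc]
      nlinarith
    have e2 : c * (n : ℝ) ^ (k + 1) < 2 ^ n := by
      rw [div_lt_div_iff₀ (by positivity) hc0] at g1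
      linarith
    linarith
  have key : ∀ᶠ j : ℕ in atTop, ∀ x ∈ Pk m j, ∀ y ∈ Pk m j, x < y → Disjoint (Wn k H β x) (Wn k H β y) := by
    filter_upwards [hgrow, eventually_ge_atTop 2] with j h1 hj x hx y hy hxy
    rw [Set.disjoint_left]
    rintro n ⟨_, h2⟩ ⟨h3, _⟩
    have h4 := Pk_far hx hy hxy
    have h4' : (x : ℝ) + 2 ^ (j / m) ≤ y := by exact_mod_cast h4
    have h5 := mem_Pk hm hj hx
    have h6 : sc k x ≤ (j : ℝ) ^ (k + 1) := by
      unfold sc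
      refine pow_le_pow_left₀ (Real.log_natCast_nonneg x) ?_ _
      have e1 : Real.log x ≤ Real.log ((2 : ℝ) ^ j) := by
        have e0 : 0 < x := lt_of_le_of_lt (Nat.zero_le _) h5.1
        refine Real.log_le_log (by exact_mod_cast e0) ?_
        exact_mod_cast h5.2
      rw [Real.log_pow] at e1
      have e2 : Real.log 2 ≤ 1 := by
        have := Real.log_two_lt_d9
        linarith
      have e3 : (0 : ℝ) ≤ j := Nat.cast_nonneg j
      nlinarith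
    have h7 := mul_le_mul_of_nonneg_left h6 hΛ0
    rw [← hΛ, ← hh] at h2
    linarith
  filter_upwards [key] with j hj x hx y hy hxy
  rcases Nat.lt_or_gt_of_ne hxy with h1 | h1
  · exact hj x hx y hy h1
  · exact (hj y hy x hx h1).symm

/-- **Lower bound for a ball.** -/
theorem ball_low [Nonempty I] {Q k : ℕ} (hA : IsModel μ (level Q) A) (hQ : 1 ≤ Q) {H : I → Finset ℕ} {α β : I → ℝ}
    (hK : Kd Q k H α β) {a : I → ℝ} (ha : ∀ i, 0 ≤ a i) {ε ρ : ℝ} (hε : 0 < ε) (hρ : 0 < ρ) :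
    ∀ᶠ x : ℕ in atTop, (x : ℝ) ^ (-(Ra (MM Q H α β) a + ρ)) ≤ μ.real (Bal A k H α β a ε x) := by
  obtain ⟨b, hb0, hb1, hb2, _⟩ := approx (fun i => MM_pos hK i) ha (show 0 < ε / 2 by linarith)
  filter_upwards [ld_low hA hQ hK b hb0 hρ, ev_log 1, ev_log (2 / ε), eventually_ge_atTop 1] with x h1 h2 h3 h4
  rw [← exp_log_rpow h4]
  refine (Real.exp_le_exp.2 (mul_le_mul_of_nonneg_right ?_ (by linarith))).trans (h1.trans
    (measureReal_mono ?_ (measure_ne_top _ _)))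
  · unfold Ra at hb2 ⊢
    linarith
  · intro ω hω i
    have hω' : ∀ i, Nu A k H α β x i ω = ⌊b i * Real.log x⌋₊ := hω
    rw [hω' i]
    have e1 : (0 : ℝ) ≤ b i * Real.log x := mul_nonneg (hb0 i).le (by linarith)
    have e2 := Nat.floor_le e1
    have e3 := Nat.lt_floor_add_one (b i * Real.log x)
    have e4 := abs_le.1 (hb1 i)
    have e5 : 1 ≤ ε / 2 * Real.log x := by
      rw [div_le_iff₀ hε] at h3
      linarith
    have e6 : (b i - a i) * Real.log x ≤ ε / 2 * Real.log x := mul_le_mul_of_nonneg_right e4.2 (by linarith)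
    have e7 : -(ε / 2) * Real.log x ≤ (b i - a i) * Real.log x := mul_le_mul_of_nonneg_right e4.1 (by linarith)
    rw [abs_le]
    constructor <;> nlinarith

/-- **The number of the windows: lower bound.** -/
theorem count_low [Nonempty I] {Q k : ℕ} (hA : IsModel μ (level Q) A) (hQ : 1 ≤ Q) {H : I → Finset ℕ} {α β : I → ℝ}
    (hK : Kd Q k H α β) {a : I → ℝ} (ha : ∀ i, 0 ≤ a i) (ha1 : Ra (MM Q H α β) a < 1) {ε δ : ℝ} (hε : 0 < ε)
    (hδ : 0 < δ) : ∃ m : ℕ, 2 ≤ m ∧ ∀ᵐ ω ∂μ, ∀ᶠ X : ℕ in atTop, (X : ℝ) ^ (1 - Ra (MM Q H α β) a - δ) ≤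
      num (Pk m (Nat.log 2 X)) (Bal A k H α β a ε) ω ∧ 1 ≤ num (Pk m (Nat.log 2 X)) (Bal A k H α β a ε) ω := by
  obtain ⟨R, hR⟩ : ∃ R, R = Ra (MM Q H α β) a := ⟨_, rfl⟩
  have hR0 : 0 ≤ R := by rw [hR]; exact Ra_nonneg (fun i => MM_pos hK i) ha
  rw [← hR] at ha1 ⊢
  obtain ⟨d, hd⟩ : ∃ d, d = min δ ((1 - R) / 2) := ⟨_, rfl⟩
  have hd0 : 0 < d := by rw [hd]; exact lt_min hδ (by linarith)
  have hd1 : d ≤ δ := by rw [hd]; exact min_le_left _ _
  have hd2 : d ≤ (1 - R) / 2 := by rw [hd]; exact min_le_right _ _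
  obtain ⟨m, hm⟩ : ∃ m : ℕ, m = ⌈8 / d⌉₊ + 2 := ⟨_, rfl⟩
  have hm2 : 2 ≤ m := by omega
  have hm0 : (0 : ℝ) < m := by exact_mod_cast (by omega : 0 < m)
  have hmd : 1 / (m : ℝ) ≤ d / 8 := by
    rw [div_le_iff₀ hm0]
    have e1 : 8 / d ≤ m := by
      rw [hm]
      push_cast
      have := Nat.le_ceil (8 / d)
      linarith
    rw [div_le_iff₀ hd0] at e1
    linarith
  refine ⟨m, hm2, ?_⟩
  have hball := ball_low hA hQ hK ha hε (show 0 < d / 8 by linarith)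
  rw [← hR] at hball
  have hS : ∀ᶠ j : ℕ in atTop, ((2 : ℝ) ^ j) ^ (1 - R - d / 2) ≤ ∑ x ∈ Pk m j, μ.real (Bal A k H α β a ε x) := by
    obtain ⟨N, hN⟩ := eventually_atTop.1 hball
    have g1 : ∀ᶠ j : ℕ in atTop, (2 : ℝ) ≤ ((2 : ℝ) ^ j) ^ (d / 4) := by
      have e1 : Tendsto (fun j : ℕ => (2 : ℝ) ^ j) atTop atTop := tendsto_pow_atTop_atTop_of_one_lt (by norm_num)
      exact ((tendsto_rpow_atTop (show 0 < d / 4 by linarith)).comp e1).eventually_ge_atTop 2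
    filter_upwards [g1, eventually_ge_atTop 2, two_pow_tendsto.eventually (eventually_ge_atTop (2 * N))] with j h1 h2 h3
    have hX1 : (1 : ℝ) ≤ (2 : ℝ) ^ j := one_le_pow₀ (by norm_num)
    have hX0 : (0 : ℝ) < (2 : ℝ) ^ j := by positivity
    have e1 : ∑ _x ∈ Pk m j, ((2 : ℝ) ^ j) ^ (-(R + d / 8)) ≤ ∑ x ∈ Pk m j, μ.real (Bal A k H α β a ε x) := by
      refine sum_le_sum (fun x hx => ?_)
      have e2 := mem_Pk hm2 h2 hx
      have e3 : N ≤ x := by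
        have : 2 ^ j = 2 * 2 ^ (j - 1) := by
          rw [← pow_succ']
          congr 1
          omega
        omega
      refine le_trans ?_ (hN x e3)
      have hx0 : (0 : ℝ) < x := by exact_mod_cast lt_of_le_of_lt (Nat.zero_le _) e2.1
      rw [Real.rpow_neg hX0.le, Real.rpow_neg hx0.le]
      refine inv_anti₀ (by positivity) ?_
      refine Real.rpow_le_rpow hx0.le ?_ (by linarith)
      exact_mod_cast e2.2
    rw [sum_const, nsmul_eq_mul] at e1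
    refine le_trans ?_ e1
    have e2 := Pk_card_real hm2 h2
    refine le_trans ?_ (mul_le_mul_of_nonneg_right e2 (by positivity))
    have e3 : ((2 : ℝ) ^ j) ^ (1 - 1 / (m : ℝ)) / 2 * ((2 : ℝ) ^ j) ^ (-(R + d / 8)) =
        ((2 : ℝ) ^ j) ^ (1 - 1 / (m : ℝ) - (R + d / 8)) / 2 := by
      rw [div_mul_eq_mul_div, ← Real.rpow_add hX0]
      congr 1
    rw [e3, le_div_iff₀ (by norm_num)]
    calc ((2 : ℝ) ^ j) ^ (1 - R - d / 2) * 2 ≤ ((2 : ℝ) ^ j) ^ (1 - R - d / 2) * ((2 : ℝ) ^ j) ^ (d / 4) :=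
          mul_le_mul_of_nonneg_left h1 (by positivity)
      _ = ((2 : ℝ) ^ j) ^ (1 - R - d / 4) := by
          rw [← Real.rpow_add hX0]
          congr 1
          ring
      _ ≤ _ := Real.rpow_le_rpow_of_exponent_le hX1 (by linarith)
  have hlow := lower_count (μ := μ) (E := Bal A k H α β a ε) (fun x => meas_Bal hA hK a ε x) (P := Pk m)
    (σ := 1 - R - d / 2) (by linarith) hS (r := 1) one_pos (by
      filter_upwards [Wn_disj k H β (fun i => (hK.a0 i).trans (hK.ab i).le) hm2] with j hj x hx y hy hxy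
      rw [indep_real hA (hj x hx y hy hxy) (F_Bal hK a ε x) (F_Bal hK a ε y)]
      have e1 : 0 ≤ μ.real (Bal A k H α β a ε x) * μ.real (Bal A k H α β a ε y) :=
        mul_nonneg measureReal_nonneg measureReal_nonneg
      have e2 : 0 ≤ ((2 : ℝ) ^ j) ^ (-(1 : ℝ)) := by positivity
      nlinarith) (δ := d / 2) (by linarith)
  filter_upwards [hlow] with ω hω
  filter_upwards [hω, eventually_ge_atTop 1] with X h1 h2
  have hX1 : (1 : ℝ) ≤ X := by exact_mod_cast h2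
  have e1 : (1 - R - d / 2 - d / 2 : ℝ) = 1 - R - d := by ring
  rw [e1] at h1
  refine ⟨(Real.rpow_le_rpow_of_exponent_le hX1 (by linarith)).trans h1, le_trans ?_ h1⟩
  exact Real.one_le_rpow hX1 (by linarith)

theorem num_ncard (A : Ω → Set ℕ) (k : ℕ) (H : I → Finset ℕ) (α β a : I → ℝ) (ε : ℝ) (X : ℕ) (ω : Ω) :
    num (range (X + 1)) (Bal A k H α β a ε) ω = ({x : ℕ | x ≤ X ∧ ω ∈ Bal A k H α β a ε x}.ncard : ℝ) := by
  classical
  rw [num_card]
  have h1 : {x : ℕ | x ≤ X ∧ ω ∈ Bal A k H α β a ε x} =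
      ↑((range (X + 1)).filter (fun x => ω ∈ Bal A k H α β a ε x)) := by
    ext x
    rw [Finset.mem_coe, mem_filter, mem_range, Set.mem_ofPred_eq, Nat.lt_succ_iff]
  rw [h1, Set.ncard_coe_finset]

/-- **The spectrum.** -/
theorem spectrum [Nonempty I] {Q k : ℕ} (hA : IsModel μ (level Q) A) (hQ : 1 ≤ Q) {H : I → Finset ℕ} {α β : I → ℝ}
    (hK : Kd Q k H α β) {a : I → ℝ} (ha : ∀ i, 0 ≤ a i) (ha1 : Ra (MM Q H α β) a < 1) {δ : ℝ}
    (hδ : 0 < δ) : ∃ ε₀ : ℝ, 0 < ε₀ ∧ ∀ ε : ℝ, 0 < ε → ε ≤ ε₀ → ∀ᵐ ω ∂μ, ∀ᶠ X : ℕ in atTop,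
      (X : ℝ) ^ (1 - Ra (MM Q H α β) a - δ) ≤ ({x : ℕ | x ≤ X ∧ ω ∈ Bal A k H α β a ε x}.ncard : ℝ) ∧
      ({x : ℕ | x ≤ X ∧ ω ∈ Bal A k H α β a ε x}.ncard : ℝ) ≤ (X : ℝ) ^ (1 - Ra (MM Q H α β) a + δ) := by
  obtain ⟨ε₀, hε₀, hup⟩ := ball_up hA hQ hK ha (show 0 < δ / 2 by linarith)
  refine ⟨ε₀, hε₀, fun ε hε hεε => ?_⟩
  obtain ⟨m, hm, hlow⟩ := count_low hA hQ hK ha ha1 hε hδ
  have hupc := upper_count (μ := μ) (E := Bal A k H α β a ε₀) (fun x => meas_Bal hA hK a ε₀ x)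
    (s := Ra (MM Q H α β) a - δ / 2) (by linarith) hup (δ := δ / 2) (by linarith)
  filter_upwards [hlow, hupc] with ω h1 h2
  filter_upwards [h1, h2, eventually_ge_atTop 4] with X g1 g2 g3
  rw [← num_ncard]
  constructor
  · refine g1.1.trans (num_mono ?_ _ ω)
    intro x hx
    have hj : 2 ≤ Nat.log 2 X := (Nat.le_log_iff_pow_le (by norm_num) (by omega)).2 (by norm_num; omega)
    have e1 := (mem_Pk hm hj hx).2
    have e2 := Nat.pow_log_le_self 2 (show X ≠ 0 by omega)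
    rw [mem_range]
    omega
  · refine (num_mono' (J := range (X + 1)) (G' := Bal A k H α β a ε₀) (fun x _ hx i => ?_)).trans (g2.trans (le_of_eq ?_))
    · exact (hx i).trans (mul_le_mul_of_nonneg_right hεε (Real.log_natCast_nonneg x))
    · congr 1
      ring

/-- **All points of the set are limit points.** -/
theorem attain [Nonempty I] {Q k : ℕ} (hA : IsModel μ (level Q) A) (hQ : 1 ≤ Q) {H : I → Finset ℕ} {α β : I → ℝ}
    (hK : Kd Q k H α β) : ∀ᵐ ω ∂μ, ∀ a : I → ℝ, (∀ i, 0 ≤ a i) → Ra (MM Q H α β) a ≤ 1 → ∀ ε : ℝ, 0 < ε →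
      ∀ᶠ X : ℕ in atTop, ∃ x : ℕ, X ≤ x ∧ x ≤ 4 * X ∧ ω ∈ Bal A k H α β a ε x := by
  obtain ⟨S, hS⟩ : ∃ S : Set (I → ℝ), S = {b | (∀ i, 0 ≤ b i) ∧ Ra (MM Q H α β) b < 1} := ⟨_, rfl⟩
  obtain ⟨D, hDS, hDc, hDd⟩ := TopologicalSpace.IsSeparable.exists_countable_dense_subset
    (TopologicalSpace.IsSeparable.of_separableSpace S)
  have h1 : ∀ᵐ ω ∂μ, ∀ b ∈ D, ∀ n : ℕ, ∀ᶠ X : ℕ in atTop, ∃ x : ℕ, X ≤ x ∧ x ≤ 4 * X ∧
      ω ∈ Bal A k H α β b (1 / ((n : ℝ) + 1)) x := by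
    rw [ae_ball_iff hDc]
    intro b hb
    rw [ae_all_iff]
    intro n
    have hbS := hDS hb
    rw [hS] at hbS
    obtain ⟨m, hm, hlow⟩ := count_low hA hQ hK hbS.1 hbS.2 (ε := 1 / ((n : ℝ) + 1)) (by positivity) one_pos
    filter_upwards [hlow] with ω hω
    have h4 : Tendsto (fun X : ℕ => 4 * X) atTop atTop := tendsto_id.const_mul_atTop' (by norm_num)
    filter_upwards [h4.eventually hω, eventually_ge_atTop 1] with X h2 h3
    have h5 := h2.2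
    have h6 : ∃ x ∈ Pk m (Nat.log 2 (4 * X)), ω ∈ Bal A k H α β b (1 / ((n : ℝ) + 1)) x := by
      by_contra hcon
      push Not at hcon
      have : num (Pk m (Nat.log 2 (4 * X))) (Bal A k H α β b (1 / ((n : ℝ) + 1))) ω = 0 := by
        unfold num
        refine sum_eq_zero (fun x hx => ?_)
        exact Set.indicator_of_notMem (hcon x hx) _
      rw [this] at h5
      norm_num at h5
    obtain ⟨x, hx, hxω⟩ := h6
    have hj : 2 ≤ Nat.log 2 (4 * X) := (Nat.le_log_iff_pow_le (by norm_num) (by omega)).2 (by norm_num; omega)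
    have e1 := mem_Pk hm hj hx
    have e2 := Nat.pow_log_le_self 2 (show 4 * X ≠ 0 by omega)
    have e3 := Nat.lt_pow_succ_log_self (by norm_num : 1 < 2) (4 * X)
    have e4 : 2 ^ (Nat.log 2 (4 * X) + 1) = 4 * 2 ^ (Nat.log 2 (4 * X) - 1) := by
      have : Nat.log 2 (4 * X) + 1 = (Nat.log 2 (4 * X) - 1) + 2 := by omega
      rw [this, pow_add]
      ring
    refine ⟨x, ?_, ?_, hxω⟩
    · omega
    · omega
  filter_upwards [h1] with ω hω a ha0 ha1 ε hε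
  obtain ⟨b, hb0, hb1, hb2, hb3⟩ := approx (fun i => MM_pos hK i) ha0 (show 0 < ε / 3 by linarith)
  have hbS : b ∈ S := by
    rw [hS]
    exact ⟨fun i => (hb0 i).le, hb3 ha1⟩
  obtain ⟨c, hc, hbc⟩ := Metric.mem_closure_iff.1 (hDd hbS) (ε / 3) (by linarith)
  obtain ⟨n, hn⟩ := exists_nat_one_div_lt (show 0 < ε / 3 by linarith)
  filter_upwards [hω c hc n] with X hX
  obtain ⟨x, h2, h3, h4⟩ := hX
  refine ⟨x, h2, h3, fun i => ?_⟩
  have e0 := Real.log_natCast_nonneg x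
  have e1 := h4 i
  have e2 := hb1 i
  have e3 : |b i - c i| ≤ ε / 3 := by
    have := dist_le_pi_dist b c i
    rw [Real.dist_eq] at this
    linarith
  have e4 : (Nu A k H α β x i ω : ℝ) - a i * Real.log x = ((Nu A k H α β x i ω : ℝ) - c i * Real.log x) +
      ((b i - a i) - (b i - c i)) * Real.log x := by ring
  rw [e4]
  refine (abs_add_le _ _).trans ?_
  rw [abs_mul, abs_of_nonneg e0]
  have e5 : |(b i - a i) - (b i - c i)| ≤ ε / 3 + ε / 3 := (abs_sub _ _).trans (add_le_add e2 e3)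
  have e6 := mul_le_mul_of_nonneg_right e5 e0
  have e7 := mul_le_mul_of_nonneg_right hn.le e0
  nlinarith

end Pool.Agent.Q106.ER
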