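import Pool.Agent.Q106.ER.Mix

/-!
# Joint tails for finitely many kinds of events
-/

set_option autoImplicit false

namespace Pool.Agent.Q106.ER

open Finset MeasureTheory ProbabilityTheory Filter Pool.Agent.Q120.GM Pool.Agent.Q106.UR

variable {Ω : Type*} [MeasurableSpace Ω] {μ : Measure Ω} [IsProbabilityMeasure μ] {ι κ I : Type*} [DecidableEq ι]
  [DecidableEq κ] [Fintype I] [DecidableEq I] {p : ι → ℝ} {A : Ω → Set ι}

/-- The number of the occurrences of the kind `i`. -/
noncomputable def cn (A : Ω → Set ι) (J : Finset κ) (T : κ → Finset ι) (τ : κ → I) (i : I) (ω : Ω) : ℕ :=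
  ((oc A J T ω).filter (fun j => τ j = i)).card

/-- The mean number of the occurrences of the kind `i`. -/
noncomputable def me (p : ι → ℝ) (J : Finset κ) (T : κ → Finset ι) (τ : κ → I) (i : I) : ℝ :=
  ∑ j ∈ J with τ j = i, pT p (T j)

omit [MeasurableSpace Ω] [IsProbabilityMeasure μ] [DecidableEq ι] [DecidableEq κ] in
theorem sum_kinds (S : Finset κ) (τ : κ → I) (f : I → ℝ) :
    ∑ j ∈ S, f (τ j) = ∑ i, ((S.filter (fun j => τ j = i)).card : ℝ) * f i := by
  rw [← Finset.sum_fiberwise S τ (fun j => f (τ j))]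
  refine sum_congr rfl (fun i _ => ?_)
  rw [sum_congr rfl (fun j hj => by rw [(mem_filter.1 hj).2] : ∀ j ∈ S.filter (fun j => τ j = i), f (τ j) = f i),
    sum_const, nsmul_eq_mul]

theorem me_nonneg (hA : IsModel μ p A) (J : Finset κ) (T : κ → Finset ι) (τ : κ → I) (i : I) : 0 ≤ me p J T τ i :=
  sum_nonneg (fun _ _ => pT_nonneg hA _)

omit [MeasurableSpace Ω] [IsProbabilityMeasure μ] [DecidableEq ι] [DecidableEq κ] in
theorem sum_me (J : Finset κ) (T : κ → Finset ι) (τ : κ → I) (f : I → ℝ) :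
    ∑ j ∈ J, f (τ j) * pT p (T j) = ∑ i, f i * me p J T τ i := by
  rw [← Finset.sum_fiberwise J τ (fun j => f (τ j) * pT p (T j))]
  refine sum_congr rfl (fun i _ => ?_)
  unfold me
  rw [mul_sum]
  exact sum_congr rfl (fun j hj => by rw [(mem_filter.1 hj).2])

/-- **Joint tails.** -/
theorem tails (hA : IsModel μ p A) (J : Finset κ) (T : κ → Finset ι) (τ : κ → I) (w c : I → ℝ) {D δ y e : ℝ} {K : ℕ}
    (hw : ∀ i, 0 < w i) (hK : ∀ j ∈ J, (T j).card ≤ K) (hb : ∀ b, (J.filter (fun j => b ∈ T j)).card ≤ K)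
    (hδ : ∀ j ∈ J, pT p (T j) ≤ δ) (hδ0 : 0 ≤ δ) (hδ1 : δ ≤ 1) (hD : ∑ e ∈ cf J T, pT p (T e.1 ∪ T e.2) ≤ D)
    (hy : 1 ≤ y) (he : 0 ≤ e) (r : ℕ) :
    μ.real {ω | ∀ i, (1 < w i → c i - e ≤ cn A J T τ i ω) ∧ (w i < 1 → (cn A J T τ i ω : ℝ) ≤ c i + e)} ≤
      Real.exp (∑ i, ((w i - 1) * me p J T τ i - c i * Real.log (w i)) + D + δ * ∑ i, me p J T τ i +
        (e + 2 * (K : ℝ) ^ 2 * r) * ∑ i, |Real.log (w i)|) + Real.exp ((y - 1) * D) / y ^ (r + 1) := by
  obtain ⟨JU, hJU⟩ : ∃ JU, JU = J.filter (fun j => 1 < w (τ j)) := ⟨_, rfl⟩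
  obtain ⟨JD, hJD⟩ : ∃ JD, JD = J.filter (fun j => w (τ j) < 1) := ⟨_, rfl⟩
  have hUJ : JU ⊆ J := by rw [hJU]; exact filter_subset _ _
  have hDJ : JD ⊆ J := by rw [hJD]; exact filter_subset _ _
  obtain ⟨R, hR⟩ : ∃ R : ℝ, R = e + 2 * (K : ℝ) ^ 2 * r := ⟨_, rfl⟩
  have hR0 : 0 ≤ R := by rw [hR]; positivity
  obtain ⟨G, hG⟩ : ∃ G, G = Real.exp (∑ i with 1 < w i, (c i - R) * Real.log (w i)) := ⟨_, rfl⟩
  obtain ⟨V, hV⟩ : ∃ V, V = Real.exp (∑ i with w i < 1, (c i + e) * Real.log (w i)) := ⟨_, rfl⟩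
  have hG0 : 0 < G := by rw [hG]; exact Real.exp_pos _
  have hV0 : 0 < V := by rw [hV]; exact Real.exp_pos _
  have hD' : ∑ e ∈ cf JD T, pT p (T e.1 ∪ T e.2) ≤ D :=
    (sum_le_sum_of_subset_of_nonneg (cf_mono hDJ T) (fun e _ _ => pT_nonneg hA _)).trans hD
  have h1 := mix hA JU JD T (fun j => w (τ j)) (M := ∑ j ∈ JU, (w (τ j) - 1) * pT p (T j))
    (m := ∑ j ∈ JD, (1 - w (τ j)) * pT p (T j)) (D := D) (δ := δ) (G := G) (V := V)
    (fun j hj => by rw [hJU, mem_filter] at hj; exact hj.2.le) le_rfl (fun j _ => (hw _).le)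
    (fun j hj => by rw [hJD, mem_filter] at hj; exact hj.2.le) le_rfl (fun j hj => hδ j (hDJ hj)) hδ1 hD' hG0 hV0
  have h2 := fam hA (cf J T) (fun e => T e.1 ∪ T e.2) hD hy (r + 1)
  have hcov : {ω | ∀ i, (1 < w i → c i - e ≤ cn A J T τ i ω) ∧ (w i < 1 → (cn A J T τ i ω : ℝ) ≤ c i + e)} ⊆
      {ω | (∃ S ⊆ oc A JU T ω, (∀ i ∈ S, ∀ j ∈ S, i ≠ j → Disjoint (T i) (T j)) ∧ G ≤ ∏ j ∈ S, w (τ j)) ∧
        V ≤ ∏ j ∈ oc A JD T ω, w (τ j)} ∪
      {ω | ∃ S ⊆ oc A (cf J T) (fun e => T e.1 ∪ T e.2) ω, r + 1 ≤ S.card ∧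
        ∀ i ∈ S, ∀ j ∈ S, i ≠ j → Disjoint (T i.1 ∪ T i.2) (T j.1 ∪ T j.2)} := by
    intro ω hω
    have hω' : ∀ i, (1 < w i → c i - e ≤ cn A J T τ i ω) ∧ (w i < 1 → (cn A J T τ i ω : ℝ) ≤ c i + e) := hω
    have hsub : oc A JU T ω ⊆ JU := fun j hj => (mem_oc.1 hj).1
    rcases comb (oc A JU T ω) T (K := K) (fun j hj => hK j (hUJ (hsub hj)))
      (fun b => (card_le_card (filter_subset_filter _ (hsub.trans hUJ))).trans (hb b)) r with
        ⟨S, hS1, hS2, hS3⟩ | ⟨F, hF1, hF2, hF3⟩
    · left
      refine ⟨⟨S, hS1, hS3, ?_⟩, ?_⟩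
      · have e1 : ∏ j ∈ S, w (τ j) = Real.exp (∑ j ∈ S, Real.log (w (τ j))) := by
          rw [Real.exp_sum]
          exact prod_congr rfl (fun j _ => (Real.exp_log (hw _)).symm)
        rw [e1, hG]
        refine Real.exp_le_exp.2 ?_
        rw [sum_kinds S τ (fun i => Real.log (w i))]
        have e2 : ∑ i, ((S.filter (fun j => τ j = i)).card : ℝ) * Real.log (w i) =
            ∑ i with 1 < w i, ((S.filter (fun j => τ j = i)).card : ℝ) * Real.log (w i) := by
          rw [sum_filter]
          refine sum_congr rfl (fun i _ => ?_)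
          split_ifs with hi
          · rfl
          · have e3 : S.filter (fun j => τ j = i) = ∅ := by
              rw [filter_eq_empty_iff]
              rintro j hj rfl
              have := hsub (hS1 hj)
              rw [hJU, mem_filter] at this
              exact hi this.2
            rw [e3, card_empty, Nat.cast_zero, zero_mul]
        rw [e2]
        refine sum_le_sum (fun i hi => ?_)
        rw [mem_filter] at hi
        refine mul_le_mul_of_nonneg_right ?_ (Real.log_pos hi.2).le
        have e3 : cn A J T τ i ω = ((oc A JU T ω).filter (fun j => τ j = i)).card := by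
          unfold cn
          congr 1
          ext j
          rw [mem_filter, mem_filter, mem_oc, mem_oc, hJU, mem_filter]
          constructor
          · rintro ⟨⟨g1, g2⟩, g3⟩
            exact ⟨⟨⟨g1, by rw [g3]; exact hi.2⟩, g2⟩, g3⟩
          · rintro ⟨⟨⟨g1, _⟩, g2⟩, g3⟩
            exact ⟨⟨g1, g2⟩, g3⟩
        have e4 : ((oc A JU T ω).filter (fun j => τ j = i)).card ≤ (S.filter (fun j => τ j = i)).card + 2 * K ^ 2 * r := by
          have g1 : oc A JU T ω = S ∪ (oc A JU T ω \ S) := (Finset.union_sdiff_of_subset hS1).symm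
          have g2 : (oc A JU T ω \ S).card = (oc A JU T ω).card - S.card := card_sdiff_of_subset hS1
          have g3 : ((oc A JU T ω).filter (fun j => τ j = i)).card ≤ (S.filter (fun j => τ j = i)).card +
              ((oc A JU T ω \ S).filter (fun j => τ j = i)).card := by
            conv_lhs => rw [g1, filter_union]
            exact card_union_le _ _
          have g4 := card_filter_le (oc A JU T ω \ S) (fun j => τ j = i)
          omega
        have e5 := (hω' i).1 hi.2
        rw [e3] at e5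
        have e6 : (((oc A JU T ω).filter (fun j => τ j = i)).card : ℝ) ≤
            (S.filter (fun j => τ j = i)).card + 2 * (K : ℝ) ^ 2 * r := by exact_mod_cast e4
        rw [hR]
        linarith
      · have e1 : ∏ j ∈ oc A JD T ω, w (τ j) = Real.exp (∑ j ∈ oc A JD T ω, Real.log (w (τ j))) := by
          rw [Real.exp_sum]
          exact prod_congr rfl (fun j _ => (Real.exp_log (hw _)).symm)
        rw [e1, hV]
        refine Real.exp_le_exp.2 ?_
        rw [sum_kinds (oc A JD T ω) τ (fun i => Real.log (w i))]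
        have e2 : ∑ i, (((oc A JD T ω).filter (fun j => τ j = i)).card : ℝ) * Real.log (w i) =
            ∑ i with w i < 1, (((oc A JD T ω).filter (fun j => τ j = i)).card : ℝ) * Real.log (w i) := by
          rw [sum_filter]
          refine sum_congr rfl (fun i _ => ?_)
          split_ifs with hi
          · rfl
          · have e3 : (oc A JD T ω).filter (fun j => τ j = i) = ∅ := by
              rw [filter_eq_empty_iff]
              rintro j hj rfl
              have := (mem_oc.1 hj).1
              rw [hJD, mem_filter] at this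
              exact hi this.2
            rw [e3, card_empty, Nat.cast_zero, zero_mul]
        rw [e2]
        refine sum_le_sum (fun i hi => ?_)
        rw [mem_filter] at hi
        refine mul_le_mul_of_nonpos_right ?_ (Real.log_nonpos (hw i).le hi.2.le)
        have e3 : cn A J T τ i ω = ((oc A JD T ω).filter (fun j => τ j = i)).card := by
          unfold cn
          congr 1
          ext j
          rw [mem_filter, mem_filter, mem_oc, mem_oc, hJD, mem_filter]
          constructor
          · rintro ⟨⟨g1, g2⟩, g3⟩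
            exact ⟨⟨⟨g1, by rw [g3]; exact hi.2⟩, g2⟩, g3⟩
          · rintro ⟨⟨⟨g1, _⟩, g2⟩, g3⟩
            exact ⟨⟨g1, g2⟩, g3⟩
        have e5 := (hω' i).2 hi.2
        rw [e3] at e5
        exact e5
    · right
      refine ⟨F, ?_, hF2, hF3⟩
      intro e' he'
      have h4 := hF1 he'
      unfold cf at h4
      rw [mem_filter, mem_product, mem_oc, mem_oc] at h4
      rw [mem_oc]
      refine ⟨?_, ?_⟩
      · unfold cf
        rw [mem_filter, mem_product]
        exact ⟨⟨hUJ h4.1.1.1, hUJ h4.1.2.1⟩, h4.2⟩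
      · intro i hi
        rw [mem_union] at hi
        rcases hi with hi | hi
        · exact h4.1.1.2 i hi
        · exact h4.1.2.2 i hi
  refine (measureReal_mono (μ := μ) hcov (measure_ne_top _ _)).trans ((measureReal_union_le _ _).trans
    (add_le_add (h1.trans ?_) h2))
  rw [hG, hV, ← Real.exp_add, ← Real.exp_sub]
  refine Real.exp_le_exp.2 ?_
  have s1 : ∑ j ∈ JU, (w (τ j) - 1) * pT p (T j) = ∑ i with 1 < w i, (w i - 1) * me p J T τ i := by
    have := sum_me (p := p) J T τ (fun i => if 1 < w i then w i - 1 else 0)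
    rw [hJU, sum_filter, sum_filter]
    refine (sum_congr rfl (fun j _ => ?_)).trans (this.trans (sum_congr rfl (fun i _ => ?_)))
    · split_ifs <;> simp
    · split_ifs <;> simp
  have s2 : ∑ j ∈ JD, (1 - w (τ j)) * pT p (T j) = ∑ i with w i < 1, (1 - w i) * me p J T τ i := by
    have := sum_me (p := p) J T τ (fun i => if w i < 1 then 1 - w i else 0)
    rw [hJD, sum_filter, sum_filter]
    refine (sum_congr rfl (fun j _ => ?_)).trans (this.trans (sum_congr rfl (fun i _ => ?_)))
    · split_ifs <;> simp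
    · split_ifs <;> simp
  rw [s1, s2]
  simp only [sum_filter]
  have s3 : ∀ i, (if 1 < w i then (w i - 1) * me p J T τ i else 0) -
      (1 - δ) * (if w i < 1 then (1 - w i) * me p J T τ i else 0) -
      ((if 1 < w i then (c i - R) * Real.log (w i) else 0) + (if w i < 1 then (c i + e) * Real.log (w i) else 0)) ≤
      ((w i - 1) * me p J T τ i - c i * Real.log (w i)) + δ * me p J T τ i + R * |Real.log (w i)| := by
    intro i
    have hm := me_nonneg hA J T τ i
    have he' : e ≤ R := by rw [hR]; have : 0 ≤ 2 * (K : ℝ) ^ 2 * r := by positivity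
                           linarith
    have hw' := hw i
    rcases lt_trichotomy (w i) 1 with h | h | h
    · rw [if_neg (by linarith), if_pos h, if_neg (by linarith), if_pos h]
      have hl : Real.log (w i) < 0 := Real.log_neg hw' h
      rw [abs_of_neg hl]
      have g1 : 0 ≤ δ * (w i * me p J T τ i) := by positivity
      have g2 : e * -Real.log (w i) ≤ R * -Real.log (w i) := mul_le_mul_of_nonneg_right he' (by linarith)
      nlinarith
    · rw [if_neg (by linarith), if_neg (by linarith), if_neg (by linarith), if_neg (by linarith), h, Real.log_one]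
      have g1 : 0 ≤ δ * me p J T τ i := by positivity
      simp only [abs_zero]
      linarith
    · rw [if_pos h, if_neg (by linarith), if_pos h, if_neg (by linarith)]
      have hl : 0 < Real.log (w i) := Real.log_pos h
      rw [abs_of_pos hl]
      have g1 : 0 ≤ δ * me p J T τ i := by positivity
      nlinarith
  have s4 := sum_le_sum (fun i (_ : i ∈ (univ : Finset I)) => s3 i)
  simp only [sum_sub_distrib, sum_add_distrib, ← mul_sum] at s4
  rw [← hR]
  simp only [sum_sub_distrib]
  linarith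

end Pool.Agent.Q106.ER
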